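import Pool.Agent.Helper58.FL2.Comb

/-! Project FL2 (MP_e8a4f2_al), section G2: combinatorial lemmas about horns and spines. -/

set_option autoImplicit false

namespace Pool.Agent.Helper7.FL2

open FL

section

variable {L : Type} [DistribLattice L] [OrderBot L] {N : ℕ} (face : Finset (Fin (N + 1)) → L)

/-- The spine of the set of vertices `U`: the union of the faces `{a, b}` for `a < b` consecutive
elements of `U`, and of all vertices of `U`. -/
def spineL (U : Finset (Fin (N + 1))) : L :=
  U.sup (fun a => face {a}) ⊔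
    ((U ×ˢ U).filter fun p => p.1 < p.2 ∧ ∀ c ∈ U, ¬ (p.1 < c ∧ c < p.2)).sup
      fun p => face {p.1, p.2}

/-- The union of the faces of `U` opposite to the elements of `T`. -/
def hornL (U T : Finset (Fin (N + 1))) : L := T.sup fun i => face (U.erase i)

end

namespace LatAux

variable {L : Type} [DistribLattice L] [OrderBot L] {N : ℕ} {face : Finset (Fin (N + 1)) → L}

theorem face_mono (hinf : ∀ U V, face (U ∩ V) = face U ⊓ face V) {U V : Finset (Fin (N + 1))}
    (h : U ⊆ V) : face U ≤ face V := by
  have h1 := hinf U V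
  rw [Finset.inter_eq_left.2 h] at h1
  exact inf_eq_left.1 h1.symm

/-- down-closed families -/
def Dn (D : Finset (Fin (N + 1)) → Prop) : Prop := ∀ X Y, X ⊆ Y → D Y → D X

open Classical in
/-- union of a family of faces -/
noncomputable def Fa (face : Finset (Fin (N + 1)) → L) (D : Finset (Fin (N + 1)) → Prop) : L :=
  (Finset.univ.filter D).sup face

open Classical in
theorem le_Fa {D : Finset (Fin (N + 1)) → Prop} {X : Finset (Fin (N + 1))} (h : D X) :
    face X ≤ Fa face D :=
  Finset.le_sup (f := face) (Finset.mem_filter.2 ⟨Finset.mem_univ _, h⟩)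

open Classical in
theorem Fa_le {D : Finset (Fin (N + 1)) → Prop} {K : L} (h : ∀ X, D X → face X ≤ K) :
    Fa face D ≤ K :=
  Finset.sup_le fun X hX => h X (Finset.mem_filter.1 hX).2

theorem Fa_congr (hbot : face ∅ = ⊥) {D D' : Finset (Fin (N + 1)) → Prop}
    (h : ∀ X, X.Nonempty → (D X ↔ D' X)) : Fa face D = Fa face D' := by
  apply le_antisymm
  · apply Fa_le
    intro X hX
    rcases X.eq_empty_or_nonempty with rfl | hne
    · rw [hbot]; exact bot_le
    · exact le_Fa ((h X hne).1 hX)
  · apply Fa_le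
    intro X hX
    rcases X.eq_empty_or_nonempty with rfl | hne
    · rw [hbot]; exact bot_le
    · exact le_Fa ((h X hne).2 hX)

theorem Fa_sup (D D' : Finset (Fin (N + 1)) → Prop) :
    Fa face D ⊔ Fa face D' = Fa face (fun X => D X ∨ D' X) := by
  apply le_antisymm
  · exact sup_le (Fa_le fun X hX => le_Fa (Or.inl hX)) (Fa_le fun X hX => le_Fa (Or.inr hX))
  · apply Fa_le
    rintro X (hX | hX)
    · exact (le_Fa hX).trans le_sup_left
    · exact (le_Fa hX).trans le_sup_right

open Classical in
theorem Fa_inf (hinf : ∀ U V, face (U ∩ V) = face U ⊓ face V)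
    {D D' : Finset (Fin (N + 1)) → Prop} (hD : Dn D) (hD' : Dn D') :
    Fa face D ⊓ Fa face D' = Fa face (fun X => D X ∧ D' X) := by
  apply le_antisymm
  · unfold Fa
    rw [Finset.sup_inf_distrib_right]
    apply Finset.sup_le
    intro X hX
    rw [Finset.sup_inf_distrib_left]
    apply Finset.sup_le
    intro Y hY
    rw [← hinf]
    exact le_Fa ⟨hD _ _ Finset.inter_subset_left (Finset.mem_filter.1 hX).2,
      hD' _ _ Finset.inter_subset_right (Finset.mem_filter.1 hY).2⟩
  · exact Fa_le fun X hX => le_inf (le_Fa hX.1) (le_Fa hX.2)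

theorem Fa_face (hinf : ∀ U V, face (U ∩ V) = face U ⊓ face V) (U : Finset (Fin (N + 1))) :
    face U = Fa face (fun X => X ⊆ U) :=
  le_antisymm (le_Fa (D := fun X => X ⊆ U) (Finset.Subset.refl _)) (Fa_le fun _ hX => face_mono hinf hX)

theorem dn_face (U : Finset (Fin (N + 1))) : Dn (fun X => X ⊆ U) :=
  fun _ _ h hY => h.trans hY

theorem dn_or {D D' : Finset (Fin (N + 1)) → Prop} (h : Dn D) (h' : Dn D') :
    Dn (fun X => D X ∨ D' X) := by
  rintro X Y hXY (hY | hY)
  · exact Or.inl (h _ _ hXY hY)
  · exact Or.inr (h' _ _ hXY hY)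

/-- the faces of the spine -/
def Sp (U X : Finset (Fin (N + 1))) : Prop :=
  X ⊆ U ∧ ∀ a ∈ X, ∀ b ∈ X, ∀ c ∈ U, a < c → c < b → False

theorem dn_Sp (U : Finset (Fin (N + 1))) : Dn (Sp U) := fun X Y h hY =>
  ⟨h.trans hY.1, fun a ha b hb c hc h1 h2 => hY.2 a (h ha) b (h hb) c hc h1 h2⟩

theorem spine_eq (hbot : face ∅ = ⊥) (hinf : ∀ U V, face (U ∩ V) = face U ⊓ face V)
    (U : Finset (Fin (N + 1))) : spineL face U = Fa face (Sp U) := by
  apply le_antisymm
  · unfold spineL
    apply sup_le
    · apply Finset.sup_le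
      intro a ha
      apply le_Fa
      refine ⟨Finset.singleton_subset_iff.2 ha, ?_⟩
      intro x hx y hy c _ h1 h2
      rw [Finset.mem_singleton] at hx hy
      subst hx; subst hy
      exact absurd (h1.trans h2) (lt_irrefl _)
    · apply Finset.sup_le
      rintro ⟨a, b⟩ hab
      rw [Finset.mem_filter, Finset.mem_product] at hab
      obtain ⟨⟨ha, hb⟩, hlt, hno⟩ := hab
      simp only at ha hb hlt hno ⊢
      apply le_Fa
      refine ⟨?_, ?_⟩
      · intro x hx
        rw [Finset.mem_insert, Finset.mem_singleton] at hx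
        rcases hx with rfl | rfl
        · exact ha
        · exact hb
      · intro x hx y hy c hc h1 h2
        rw [Finset.mem_insert, Finset.mem_singleton] at hx hy
        rcases hx with rfl | rfl
        · rcases hy with rfl | rfl
          · exact absurd (h1.trans h2) (lt_irrefl _)
          · exact hno c hc ⟨h1, h2⟩
        · rcases hy with rfl | rfl
          · exact absurd ((hlt.trans h1).trans h2) (lt_irrefl _)
          · exact absurd (h1.trans h2) (lt_irrefl _)
  · apply Fa_le
    rintro X ⟨hXU, hX⟩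
    rcases X.eq_empty_or_nonempty with rfl | hne
    · rw [hbot]; exact bot_le
    · have h1 := X.min'_mem hne
      have h2 := X.max'_mem hne
      set a := X.min' hne with ha
      set b := X.max' hne with hb
      have hsub : X ⊆ {a, b} := by
        intro x hx
        rw [Finset.mem_insert, Finset.mem_singleton]
        have h3 : a ≤ x := X.min'_le x hx
        have h4 : x ≤ b := X.le_max' x hx
        rcases h3.eq_or_lt with h5 | h5
        · exact Or.inl h5.symm
        · rcases h4.eq_or_lt with h6 | h6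
          · exact Or.inr h6
          · exact absurd (hX a h1 b h2 x (hXU hx) h5 h6) id
      refine (face_mono hinf hsub).trans ?_
      have hab : a ≤ b := X.min'_le _ h2
      rcases hab.eq_or_lt with h3 | h3
      · rw [← h3, Finset.pair_eq_singleton]
        exact (Finset.le_sup (f := fun a => face {a}) (hXU h1)).trans le_sup_left
      · refine (Finset.le_sup (f := fun p : Fin (N + 1) × Fin (N + 1) => face {p.1, p.2})
          (b := (a, b)) ?_).trans le_sup_right
        rw [Finset.mem_filter, Finset.mem_product]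
        exact ⟨⟨hXU h1, hXU h2⟩, h3, fun c hc h => hX a h1 b h2 c hc h.1 h.2⟩

/-- the faces of the horn -/
def Hn (U T X : Finset (Fin (N + 1))) : Prop := X ⊆ U ∧ ∃ i ∈ T, i ∉ X

theorem dn_Hn (U T : Finset (Fin (N + 1))) : Dn (Hn U T) := fun X Y h hY =>
  ⟨h.trans hY.1, by
    obtain ⟨i, hi, hiY⟩ := hY.2
    exact ⟨i, hi, fun hX => hiY (h hX)⟩⟩

theorem horn_eq (hinf : ∀ U V, face (U ∩ V) = face U ⊓ face V)
    (U T : Finset (Fin (N + 1))) : hornL face U T = Fa face (Hn U T) := by
  apply le_antisymm
  · unfold hornL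
    apply Finset.sup_le
    intro i hi
    exact le_Fa ⟨Finset.erase_subset _ _, i, hi, Finset.notMem_erase i U⟩
  · apply Fa_le
    rintro X ⟨hXU, i, hi, hiX⟩
    refine (face_mono hinf ?_).trans (Finset.le_sup (f := fun i => face (U.erase i)) hi)
    intro x hx
    rw [Finset.mem_erase]
    exact ⟨fun h => hiX (h ▸ hx), hXU hx⟩

section Rel

variable (R : L → L → Prop)

theorem push (hinf : ∀ U V, face (U ∩ V) = face U ⊓ face V)
    (hpush : ∀ K₁ K₂, R (K₁ ⊓ K₂) K₂ → R K₁ (K₁ ⊔ K₂)) {D D' : Finset (Fin (N + 1)) → Prop}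
    (hD : Dn D) (hD' : Dn D') (h : R (Fa face (fun X => D X ∧ D' X)) (Fa face D')) :
    R (Fa face D) (Fa face (fun X => D X ∨ D' X)) := by
  rw [← Fa_sup]
  apply hpush
  rw [Fa_inf hinf hD hD']
  exact h

theorem Fa_le_face (hinf : ∀ U V, face (U ∩ V) = face U ⊓ face V)
    {D : Finset (Fin (N + 1)) → Prop} {U : Finset (Fin (N + 1))} (h : ∀ X, D X → X ⊆ U) :
    Fa face D ≤ face U := Fa_le fun X hX => face_mono hinf (h X hX)

/-- step (a): from the spine to the spine and the face opposite to the least vertex -/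
theorem stepA (hbot : face ∅ = ⊥) (hinf : ∀ U V, face (U ∩ V) = face U ⊓ face V)
    (hpush : ∀ K₁ K₂, R (K₁ ⊓ K₂) K₂ → R K₁ (K₁ ⊔ K₂))
    (hspine : ∀ U : Finset (Fin (N + 1)), U.Nonempty → R (spineL face U) (face U))
    (U : Finset (Fin (N + 1))) (u : Fin (N + 1)) (hu : ∀ x ∈ U, u ≤ x)
    (hne : (U.erase u).Nonempty) :
    R (spineL face U) (Fa face (fun X => Sp U X ∨ X ⊆ U.erase u)) := by
  rw [spine_eq hbot hinf]
  apply push R hinf hpush (dn_Sp U) (dn_face _)
  have h1 := hspine (U.erase u) hne
  rw [spine_eq hbot hinf, Fa_face hinf (U.erase u)] at h1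
  have h2 : Fa face (fun X => Sp U X ∧ X ⊆ U.erase u) = Fa face (Sp (U.erase u)) := by
    apply Fa_congr hbot
    intro X _
    constructor
    · rintro ⟨⟨_, h3⟩, h4⟩
      exact ⟨h4, fun a ha b hb c hc => h3 a ha b hb c (Finset.mem_of_mem_erase hc)⟩
    · rintro ⟨h3, h4⟩
      refine ⟨⟨h3.trans (Finset.erase_subset _ _), ?_⟩, h3⟩
      intro a ha b hb c hc h5 h6
      by_cases hcu : c = u
      · subst hcu
        have h7 := hu a (Finset.mem_of_mem_erase (h3 ha))
        exact absurd (lt_of_le_of_lt h7 h5) (lt_irrefl _)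
      · exact h4 a ha b hb c (Finset.mem_erase.2 ⟨hcu, hc⟩) h5 h6
  rw [h2]
  exact h1

/-- step (b): both outer faces -/
theorem stepB (hbot : face ∅ = ⊥) (hinf : ∀ U V, face (U ∩ V) = face U ⊓ face V)
    (htrans : ∀ K₁ K₂ K₃, R K₁ K₂ → R K₂ K₃ → R K₁ K₃)
    (hcancel : ∀ K₁ K₂ K₃, R K₁ K₂ → R K₁ K₃ → K₂ ≤ K₃ → R K₂ K₃)
    (hpush : ∀ K₁ K₂, R (K₁ ⊓ K₂) K₂ → R K₁ (K₁ ⊔ K₂))
    (hspine : ∀ U : Finset (Fin (N + 1)), U.Nonempty → R (spineL face U) (face U))
    (U : Finset (Fin (N + 1))) (u v w : Fin (N + 1)) (huU : u ∈ U) (hvU : v ∈ U) (hwU : w ∈ U)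
    (hu : ∀ x ∈ U, u ≤ x) (hv : ∀ x ∈ U, x ≤ v) (huw : u < w) (hwv : w < v) :
    R (Fa face (Hn U {u, v})) (face U) := by
  have huv : u < v := huw.trans hwv
  have hA := stepA R hbot hinf hpush hspine U u hu ⟨w, Finset.mem_erase.2 ⟨huw.ne', hwU⟩⟩
  have huE : ∀ x ∈ U.erase v, u ≤ x := fun x hx => hu x (Finset.mem_of_mem_erase hx)
  have hA' := stepA R hbot hinf hpush hspine (U.erase v) u huE
    ⟨w, Finset.mem_erase.2 ⟨huw.ne', Finset.mem_erase.2 ⟨hwv.ne, hwU⟩⟩⟩
  have hS := hspine U ⟨u, huU⟩
  have hS' := hspine (U.erase v) ⟨u, Finset.mem_erase.2 ⟨huv.ne, huU⟩⟩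
  have h1 : R (Fa face (fun X => Sp (U.erase v) X ∨ X ⊆ (U.erase v).erase u))
      (face (U.erase v)) := by
    apply hcancel _ _ _ hA' hS'
    apply Fa_le_face hinf
    rintro X (hX | hX)
    · exact hX.1
    · exact hX.trans (Finset.erase_subset _ _)
  have h2 : Fa face (fun X => (Sp U X ∨ X ⊆ U.erase u) ∧ X ⊆ U.erase v) =
      Fa face (fun X => Sp (U.erase v) X ∨ X ⊆ (U.erase v).erase u) := by
    apply Fa_congr hbot
    intro X _
    constructor
    · rintro ⟨h3 | h3, h4⟩
      · left
        exact ⟨h4, fun a ha b hb c hc => h3.2 a ha b hb c (Finset.mem_of_mem_erase hc)⟩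
      · right
        intro x hx
        exact Finset.mem_erase.2 ⟨(Finset.mem_erase.1 (h3 hx)).1, h4 hx⟩
    · rintro (h3 | h3)
      · refine ⟨Or.inl ⟨h3.1.trans (Finset.erase_subset _ _), ?_⟩, h3.1⟩
        intro a ha b hb c hc h5 h6
        by_cases hcv : c = v
        · subst hcv
          have h7 := hv b (Finset.mem_of_mem_erase (h3.1 hb))
          exact absurd (lt_of_lt_of_le h6 h7) (lt_irrefl _)
        · exact h3.2 a ha b hb c (Finset.mem_erase.2 ⟨hcv, hc⟩) h5 h6
      · refine ⟨Or.inr ?_, h3.trans (Finset.erase_subset _ _)⟩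
        intro x hx
        have h4 := Finset.mem_erase.1 (h3 hx)
        exact Finset.mem_erase.2 ⟨h4.1, Finset.mem_of_mem_erase h4.2⟩
  have h3 := push R hinf hpush (dn_or (dn_Sp U) (dn_face (U.erase u))) (dn_face (U.erase v))
    (by rw [h2, ← Fa_face hinf]; exact h1)
  have h4 : Fa face (fun X => (Sp U X ∨ X ⊆ U.erase u) ∨ X ⊆ U.erase v) =
      Fa face (Hn U {u, v}) := by
    apply Fa_congr hbot
    intro X _
    constructor
    · rintro ((h5 | h5) | h5)
      · refine ⟨h5.1, ?_⟩
        by_contra hno
        push Not at hno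
        have e1 := hno u (by simp)
        have e2 := hno v (by simp)
        exact h5.2 u e1 v e2 w hwU huw hwv
      · exact ⟨h5.trans (Finset.erase_subset _ _), u, by simp,
          fun h => absurd (h5 h) (Finset.notMem_erase u U)⟩
      · exact ⟨h5.trans (Finset.erase_subset _ _), v, by simp,
          fun h => absurd (h5 h) (Finset.notMem_erase v U)⟩
    · rintro ⟨h5, i, hi, hiX⟩
      rw [Finset.mem_insert, Finset.mem_singleton] at hi
      rcases hi with rfl | rfl
      · left; right
        intro x hx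
        exact Finset.mem_erase.2 ⟨fun h => hiX (h ▸ hx), h5 hx⟩
      · right
        intro x hx
        exact Finset.mem_erase.2 ⟨fun h => hiX (h ▸ hx), h5 hx⟩
  rw [h4] at h3
  exact hcancel _ _ _ (htrans _ _ _ hA h3) hS (Fa_le_face hinf fun X hX => hX.1)

/-- adding one face to a horn -/
theorem horn_step (hbot : face ∅ = ⊥) (hinf : ∀ U V, face (U ∩ V) = face U ⊓ face V)
    (hpush : ∀ K₁ K₂, R (K₁ ⊓ K₂) K₂ → R K₁ (K₁ ⊔ K₂))
    (U T : Finset (Fin (N + 1))) (i : Fin (N + 1)) (hi : i ∉ T)
    (h : R (Fa face (Hn (U.erase i) T)) (face (U.erase i))) :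
    R (Fa face (Hn U T)) (Fa face (Hn U (insert i T))) := by
  have h1 : Fa face (fun X => Hn U T X ∧ X ⊆ U.erase i) = Fa face (Hn (U.erase i) T) := by
    apply Fa_congr hbot
    intro X _
    constructor
    · rintro ⟨h2, h3⟩
      exact ⟨h3, h2.2⟩
    · rintro ⟨h2, h3⟩
      exact ⟨⟨h2.trans (Finset.erase_subset _ _), h3⟩, h2⟩
  have h2 := push R hinf hpush (dn_Hn U T) (dn_face (U.erase i))
    (by rw [h1, ← Fa_face hinf]; exact h)
  have h3 : Fa face (fun X => Hn U T X ∨ X ⊆ U.erase i) = Fa face (Hn U (insert i T)) := by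
    apply Fa_congr hbot
    intro X _
    constructor
    · rintro (⟨h4, j, hj, hjX⟩ | h4)
      · exact ⟨h4, j, Finset.mem_insert_of_mem hj, hjX⟩
      · exact ⟨h4.trans (Finset.erase_subset _ _), i, Finset.mem_insert_self _ _,
          fun h => absurd (h4 h) (Finset.notMem_erase i U)⟩
    · rintro ⟨h4, j, hj, hjX⟩
      rw [Finset.mem_insert] at hj
      rcases hj with rfl | hj
      · right
        intro x hx
        exact Finset.mem_erase.2 ⟨fun h => hjX (h ▸ hx), h4 hx⟩
      · exact Or.inl ⟨h4, j, hj, hjX⟩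
  rw [h3] at h2
  exact h2

end Rel

end LatAux

open LatAux

section

variable {L : Type} [DistribLattice L] [OrderBot L] {N : ℕ} (face : Finset (Fin (N + 1)) → L)

theorem lat_JT (hbot : face ∅ = ⊥) (hinf : ∀ U V, face (U ∩ V) = face U ⊓ face V)
    (R : L → L → Prop) (hrefl : ∀ K, R K K)
    (htrans : ∀ K₁ K₂ K₃, R K₁ K₂ → R K₂ K₃ → R K₁ K₃)
    (hcancel : ∀ K₁ K₂ K₃, R K₁ K₂ → R K₁ K₃ → K₂ ≤ K₃ → R K₂ K₃)
    (hpush : ∀ K₁ K₂, R (K₁ ⊓ K₂) K₂ → R K₁ (K₁ ⊔ K₂))
    (hspine : ∀ U : Finset (Fin (N + 1)), U.Nonempty → R (spineL face U) (face U))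
    (U S : Finset (Fin (N + 1))) (hS : S.Nonempty) (hSU : S ⊆ U)
    (hint : ∀ i ∈ S, (∃ a ∈ U, a < i) ∧ ∃ b ∈ U, i < b) :
    R (hornL face U (U \ S)) (face U) := by
  rw [horn_eq hinf]
  induction hn : U.card using Nat.strong_induction_on generalizing U S with
  | _ n ih =>
    obtain ⟨w, hw⟩ := hS
    have hwU := hSU hw
    have hUne : U.Nonempty := ⟨w, hwU⟩
    set u := U.min' hUne with hu
    set v := U.max' hUne with hv
    have huU : u ∈ U := U.min'_mem hUne
    have hvU : v ∈ U := U.max'_mem hUne
    have hule : ∀ x ∈ U, u ≤ x := fun x hx => U.min'_le x hx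
    have hlev : ∀ x ∈ U, x ≤ v := fun x hx => U.le_max' x hx
    have huS : ∀ i ∈ S, u < i ∧ i < v := by
      intro i hi
      obtain ⟨⟨a, ha, hai⟩, b, hb, hib⟩ := hint i hi
      exact ⟨lt_of_le_of_lt (hule a ha) hai, lt_of_lt_of_le hib (hlev b hb)⟩
    have hB := stepB R hbot hinf htrans hcancel hpush hspine U u v w huU hvU hwU hule hlev
      (huS w hw).1 (huS w hw).2
    have huv : u < v := (huS w hw).1.trans (huS w hw).2
    -- all horns between
    have key : ∀ T : Finset (Fin (N + 1)), T ⊆ U \ S → R (Fa face (Hn U {u, v}))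
        (Fa face (Hn U ({u, v} ∪ T))) := by
      intro T
      induction T using Finset.induction_on with
      | empty =>
        intro _
        rw [Finset.union_empty]
        exact hrefl _
      | insert i T hiT ihT =>
        intro hT
        have h1 := ihT (fun x hx => hT (Finset.mem_insert_of_mem hx))
        rw [Finset.union_insert]
        by_cases hi : i ∈ ({u, v} ∪ T : Finset (Fin (N + 1)))
        · rw [Finset.insert_eq_of_mem hi]
          exact h1
        · refine htrans _ _ _ h1 (horn_step R hbot hinf hpush U _ i hi ?_)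
          have hiU : i ∈ U := (Finset.mem_sdiff.1 (hT (Finset.mem_insert_self _ _))).1
          have hiS : i ∉ S := (Finset.mem_sdiff.1 (hT (Finset.mem_insert_self _ _))).2
          have hiuv : i ≠ u ∧ i ≠ v := by
            rw [Finset.mem_union, Finset.mem_insert, Finset.mem_singleton] at hi
            push Not at hi
            exact hi.1
          set T' := ({u, v} ∪ T : Finset (Fin (N + 1))) with hT'
          have hT'U : T' ⊆ U.erase i := by
            intro x hx
            rw [Finset.mem_erase]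
            refine ⟨fun h => hi (h ▸ hx), ?_⟩
            rw [hT', Finset.mem_union, Finset.mem_insert, Finset.mem_singleton] at hx
            rcases hx with (rfl | rfl) | hx
            · exact huU
            · exact hvU
            · exact (Finset.mem_sdiff.1 (hT (Finset.mem_insert_of_mem hx))).1
          have hT'S : ∀ x ∈ T', x ∉ S := by
            intro x hx hxS
            rw [hT', Finset.mem_union, Finset.mem_insert, Finset.mem_singleton] at hx
            rcases hx with (rfl | rfl) | hx
            · exact absurd (huS _ hxS).1 (lt_irrefl _)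
            · exact absurd (huS _ hxS).2 (lt_irrefl _)
            · exact (Finset.mem_sdiff.1 (hT (Finset.mem_insert_of_mem hx))).2 hxS
          have hcard : (U.erase i).card < n := by
            rw [← hn]
            exact Finset.card_erase_lt_of_mem hiU
          have h2 := ih (U.erase i).card hcard (U.erase i) (U.erase i \ T')
            ⟨w, Finset.mem_sdiff.2 ⟨Finset.mem_erase.2 ⟨fun h => hiS (h ▸ hw), hwU⟩,
              fun h => hT'S w h hw⟩⟩ Finset.sdiff_subset
            (by
              intro j hj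
              rw [Finset.mem_sdiff] at hj
              have hjU := Finset.mem_of_mem_erase hj.1
              have hju : j ≠ u := fun h => hj.2 (by rw [h, hT']; simp)
              have hjv : j ≠ v := fun h => hj.2 (by rw [h, hT']; simp)
              refine ⟨⟨u, Finset.mem_erase.2 ⟨hiuv.1.symm, huU⟩,
                lt_of_le_of_ne (hule j hjU) hju.symm⟩, v,
                Finset.mem_erase.2 ⟨hiuv.2.symm, hvU⟩, lt_of_le_of_ne (hlev j hjU) hjv⟩) rfl
          rw [Finset.sdiff_sdiff_eq_self hT'U] at h2
          exact h2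
    have h1 := key (U \ S) (Finset.Subset.refl _)
    have h2 : ({u, v} ∪ U \ S : Finset (Fin (N + 1))) = U \ S := by
      rw [Finset.union_eq_right]
      intro x hx
      rw [Finset.mem_insert, Finset.mem_singleton] at hx
      rw [Finset.mem_sdiff]
      rcases hx with rfl | rfl
      · exact ⟨huU, fun h => absurd (huS _ h).1 (lt_irrefl _)⟩
      · exact ⟨hvU, fun h => absurd (huS _ h).2 (lt_irrefl _)⟩
    rw [h2] at h1
    exact hcancel _ _ _ h1 hB (Fa_le_face hinf fun X hX => hX.1)

/-- Binary Segal decompositions from spines. -/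
theorem lat_bin (hbot : face ∅ = ⊥) (hinf : ∀ U V, face (U ∩ V) = face U ⊓ face V)
    (R : L → L → Prop) (hrefl : ∀ K, R K K)
    (htrans : ∀ K₁ K₂ K₃, R K₁ K₂ → R K₂ K₃ → R K₁ K₃)
    (hcancel : ∀ K₁ K₂ K₃, R K₁ K₂ → R K₁ K₃ → K₂ ≤ K₃ → R K₂ K₃)
    (hpush : ∀ K₁ K₂, R (K₁ ⊓ K₂) K₂ → R K₁ (K₁ ⊔ K₂))
    (hspine : ∀ U : Finset (Fin (N + 1)), U.Nonempty → R (spineL face U) (face U))
    (U : Finset (Fin (N + 1))) (a : Fin (N + 1)) (ha : a ∈ U) :
    R (face (U.filter (· ≤ a)) ⊔ face (U.filter (a ≤ ·))) (face U) := by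
  set A := U.filter (· ≤ a) with hA
  set B := U.filter (a ≤ ·) with hB
  have haA : a ∈ A := Finset.mem_filter.2 ⟨ha, le_refl _⟩
  have haB : a ∈ B := Finset.mem_filter.2 ⟨ha, le_refl _⟩
  have hAU : A ⊆ U := Finset.filter_subset _ _
  have hBU : B ⊆ U := Finset.filter_subset _ _
  have hsA := hspine A ⟨a, haA⟩
  have hsB := hspine B ⟨a, haB⟩
  have hsU := hspine U ⟨a, ha⟩
  rw [spine_eq hbot hinf] at hsA hsB hsU
  have h1 : Fa face (fun X => Sp U X ∧ X ⊆ A) = Fa face (Sp A) := by
    apply Fa_congr hbot
    intro X _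
    constructor
    · rintro ⟨h3, h4⟩
      exact ⟨h4, fun x hx y hy c hc => h3.2 x hx y hy c (hAU hc)⟩
    · rintro ⟨h3, h4⟩
      refine ⟨⟨h3.trans hAU, ?_⟩, h3⟩
      intro x hx y hy c hc h5 h6
      have h7 := (Finset.mem_filter.1 (h3 hy)).2
      exact h4 x hx y hy c (Finset.mem_filter.2 ⟨hc, h6.le.trans h7⟩) h5 h6
  have h2 := push R hinf hpush (dn_Sp U) (dn_face A) (by rw [h1, ← Fa_face hinf]; exact hsA)
  have h3 : Fa face (fun X => (Sp U X ∨ X ⊆ A) ∧ X ⊆ B) = Fa face (Sp B) := by
    apply Fa_congr hbot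
    intro X _
    constructor
    · rintro ⟨h3 | h3, h4⟩
      · exact ⟨h4, fun x hx y hy c hc => h3.2 x hx y hy c (hBU hc)⟩
      · refine ⟨h4, ?_⟩
        intro x hx y hy c hc h5 h6
        have e1 := (Finset.mem_filter.1 (h4 hx)).2
        have e2 := (Finset.mem_filter.1 (h3 hy)).2
        exact absurd (lt_of_le_of_lt e1 (lt_of_lt_of_le (h5.trans h6) e2)) (lt_irrefl _)
    · rintro ⟨h3, h4⟩
      refine ⟨Or.inl ⟨h3.trans hBU, ?_⟩, h3⟩
      intro x hx y hy c hc h5 h6
      have h7 := (Finset.mem_filter.1 (h3 hx)).2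
      exact h4 x hx y hy c (Finset.mem_filter.2 ⟨hc, h7.trans h5.le⟩) h5 h6
  have h4 := push R hinf hpush (dn_or (dn_Sp U) (dn_face A)) (dn_face B)
    (by rw [h3, ← Fa_face hinf]; exact hsB)
  have h5 : Fa face (fun X => (Sp U X ∨ X ⊆ A) ∨ X ⊆ B) = face A ⊔ face B := by
    rw [Fa_face hinf A, Fa_face hinf B, Fa_sup]
    apply Fa_congr hbot
    intro X _
    constructor
    · rintro ((h5 | h5) | h5)
      · by_contra hno
        push Not at hno
        obtain ⟨hn1, hn2⟩ := hno
        rw [Finset.not_subset] at hn1 hn2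
        obtain ⟨x, hx, hxA⟩ := hn1
        obtain ⟨y, hy, hyB⟩ := hn2
        have e1 : a < x := by
          by_contra h6
          exact hxA (Finset.mem_filter.2 ⟨h5.1 hx, not_lt.1 h6⟩)
        have e2 : y < a := by
          by_contra h6
          exact hyB (Finset.mem_filter.2 ⟨h5.1 hy, not_lt.1 h6⟩)
        exact h5.2 y hy x hx a ha e2 e1
      · exact Or.inl h5
      · exact Or.inr h5
    · rintro (h5 | h5)
      · exact Or.inl (Or.inr h5)
      · exact Or.inr h5
  rw [h5] at h4
  exact hcancel _ _ _ (htrans _ _ _ h2 h4) hsU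
    (sup_le (face_mono hinf hAU) (face_mono hinf hBU))

/-- Spines from binary Segal decompositions. -/
theorem lat_spine (hbot : face ∅ = ⊥) (hinf : ∀ U V, face (U ∩ V) = face U ⊓ face V)
    (R : L → L → Prop) (hrefl : ∀ K, R K K)
    (htrans : ∀ K₁ K₂ K₃, R K₁ K₂ → R K₂ K₃ → R K₁ K₃)
    (hcancel : ∀ K₁ K₂ K₃, R K₁ K₂ → R K₁ K₃ → K₂ ≤ K₃ → R K₂ K₃)
    (hpush : ∀ K₁ K₂, R (K₁ ⊓ K₂) K₂ → R K₁ (K₁ ⊔ K₂))
    (hb : ∀ (U : Finset (Fin (N + 1))) (a b : Fin (N + 1)), a ∈ U → b ∈ U → a < b →
      (∀ c ∈ U, c ≤ a ∨ c = b) → R (face (U.erase b) ⊔ face {a, b}) (face U))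
    (U : Finset (Fin (N + 1))) (hU : U.Nonempty) : R (spineL face U) (face U) := by
  rw [spine_eq hbot hinf]
  induction hn : U.card using Nat.strong_induction_on generalizing U with
  | _ n ih =>
    set b := U.max' hU with hbdef
    have hbU : b ∈ U := U.max'_mem hU
    have hle : ∀ x ∈ U, x ≤ b := fun x hx => U.le_max' x hx
    rcases (U.erase b).eq_empty_or_nonempty with hE | hE
    · have h1 : ∀ x ∈ U, x = b := by
        intro x hx
        by_contra hne
        have : x ∈ U.erase b := Finset.mem_erase.2 ⟨hne, hx⟩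
        rw [hE] at this
        exact absurd this (Finset.notMem_empty _)
      have h2 : Fa face (Sp U) = face U := by
        rw [Fa_face hinf U]
        apply Fa_congr hbot
        intro X _
        refine ⟨fun h => h.1, fun h => ⟨h, ?_⟩⟩
        intro x hx y hy c hc h5 h6
        rw [h1 x (h hx), h1 c hc] at h5
        exact absurd h5 (lt_irrefl _)
      rw [h2]
      exact hrefl _
    · set a := (U.erase b).max' hE with hadef
      have haE : a ∈ U.erase b := (U.erase b).max'_mem hE
      have haU : a ∈ U := Finset.mem_of_mem_erase haE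
      have hab : a < b := lt_of_le_of_ne (hle a haU) (Finset.mem_erase.1 haE).1
      have hcons : ∀ c ∈ U, c ≤ a ∨ c = b := by
        intro c hc
        by_cases h : c = b
        · exact Or.inr h
        · exact Or.inl ((U.erase b).le_max' c (Finset.mem_erase.2 ⟨h, hc⟩))
      have hcard : (U.erase b).card < n := by
        rw [← hn]
        exact Finset.card_erase_lt_of_mem hbU
      have h1 := ih _ hcard (U.erase b) hE rfl
      have h2 : Fa face (fun X => Sp U X ∧ X ⊆ U.erase b) = Fa face (Sp (U.erase b)) := by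
        apply Fa_congr hbot
        intro X _
        constructor
        · rintro ⟨h3, h4⟩
          exact ⟨h4, fun x hx y hy c hc => h3.2 x hx y hy c (Finset.mem_of_mem_erase hc)⟩
        · rintro ⟨h3, h4⟩
          refine ⟨⟨h3.trans (Finset.erase_subset _ _), ?_⟩, h3⟩
          intro x hx y hy c hc h5 h6
          by_cases hcb : c = b
          · have h7 := hle y (Finset.mem_of_mem_erase (h3 hy))
            rw [hcb] at h6
            exact absurd (lt_of_lt_of_le h6 h7) (lt_irrefl _)
          · exact h4 x hx y hy c (Finset.mem_erase.2 ⟨hcb, hc⟩) h5 h6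
      have h3 := push R hinf hpush (dn_Sp U) (dn_face (U.erase b))
        (by rw [h2, ← Fa_face hinf]; exact h1)
      have h4 : Fa face (fun X => Sp U X ∨ X ⊆ U.erase b) = face (U.erase b) ⊔ face {a, b} := by
        rw [Fa_face hinf (U.erase b), Fa_face hinf {a, b}, Fa_sup]
        apply Fa_congr hbot
        intro X _
        constructor
        · rintro (h5 | h5)
          · by_cases hbX : b ∈ X
            · right
              intro x hx
              rw [Finset.mem_insert, Finset.mem_singleton]
              rcases hcons x (h5.1 hx) with h6 | h6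
              · rcases h6.eq_or_lt with h7 | h7
                · exact Or.inl h7
                · exact absurd (h5.2 x hx b hbX a haU h7 hab) id
              · exact Or.inr h6
            · left
              intro x hx
              exact Finset.mem_erase.2 ⟨fun h => hbX (h ▸ hx), h5.1 hx⟩
          · exact Or.inl h5
        · rintro (h5 | h5)
          · exact Or.inr h5
          · left
            have h6 : ∀ x ∈ X, x = a ∨ x = b := by
              intro x hx
              have := h5 hx
              rwa [Finset.mem_insert, Finset.mem_singleton] at this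
            refine ⟨?_, ?_⟩
            · intro x hx
              rcases h6 x hx with rfl | rfl
              · exact haU
              · exact hbU
            · intro x hx y hy c hc h7 h8
              have hax : a ≤ x := by
                rcases h6 x hx with h | h
                · exact h.ge
                · rw [h]; exact hab.le
              have hyb : y ≤ b := by
                rcases h6 y hy with h | h
                · rw [h]; exact hab.le
                · exact h.le
              rcases hcons c hc with h9 | h9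
              · exact absurd (lt_of_le_of_lt hax (lt_of_lt_of_le h7 h9)) (lt_irrefl _)
              · rw [h9] at h8
                exact absurd (lt_of_lt_of_le h8 hyb) (lt_irrefl _)
      rw [h4] at h3
      exact htrans _ _ _ h3 (hb U a b haU hbU hab hcons)

theorem lat_HORN (hbot : face ∅ = ⊥) (hinf : ∀ U V, face (U ∩ V) = face U ⊓ face V)
    (R : L → L → Prop)
    (htrans : ∀ K₁ K₂ K₃, R K₁ K₂ → R K₂ K₃ → R K₁ K₃)
    (hcancel : ∀ K₁ K₂ K₃, R K₁ K₂ → R K₁ K₃ → K₂ ≤ K₃ → R K₂ K₃)
    (hpush : ∀ K₁ K₂, R (K₁ ⊓ K₂) K₂ → R K₁ (K₁ ⊔ K₂))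
    (hglue : ∀ (S S' : Finset (Fin (N + 1))) (v : Fin (N + 1)), S ∩ S' = {v} →
      R (face S ⊔ face S') (face (S ∪ S')))
    (U T : Finset (Fin (N + 1))) (hTU : T ⊂ U) (hT : 2 ≤ T.card) :
    R (hornL face U T) (face U) := by
  rw [horn_eq hinf]
  induction hn : T.card using Nat.strong_induction_on generalizing U T with
  | _ n ih =>
    obtain ⟨v, hvU, hvT⟩ := Finset.exists_of_ssubset hTU
    rcases hT.eq_or_lt with h2 | h2
    · obtain ⟨i, j, hij, rfl⟩ := Finset.card_eq_two.1 h2.symm
      have hiU : i ∈ U := hTU.1 (by simp)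
      have hjU : j ∈ U := hTU.1 (by simp)
      have hvi : v ≠ i := fun h => hvT (by rw [h]; simp)
      have hvj : v ≠ j := fun h => hvT (by rw [h]; simp)
      have g1 := hglue (U.erase i) {v, i} v (by
        ext x
        simp only [Finset.mem_inter, Finset.mem_erase, Finset.mem_insert, Finset.mem_singleton]
        constructor
        · rintro ⟨⟨h1, _⟩, h3 | h3⟩
          · exact h3
          · exact absurd h3 h1
        · rintro rfl
          exact ⟨⟨hvi, hvU⟩, Or.inl rfl⟩)
      have e1 : U.erase i ∪ {v, i} = U := by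
        ext x
        simp only [Finset.mem_union, Finset.mem_erase, Finset.mem_insert, Finset.mem_singleton]
        constructor
        · rintro (⟨_, h⟩ | rfl | rfl)
          · exact h
          · exact hvU
          · exact hiU
        · intro h
          by_cases hxi : x = i
          · exact Or.inr (Or.inr hxi)
          · exact Or.inl ⟨hxi, h⟩
      rw [e1] at g1
      have g2 := hglue ((U.erase i).erase j) {v, i} v (by
        ext x
        simp only [Finset.mem_inter, Finset.mem_erase, Finset.mem_insert, Finset.mem_singleton]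
        constructor
        · rintro ⟨⟨_, h1, _⟩, h3 | h3⟩
          · exact h3
          · exact absurd h3 h1
        · rintro rfl
          exact ⟨⟨hvj, hvi, hvU⟩, Or.inl rfl⟩)
      have e2 : (U.erase i).erase j ∪ {v, i} = U.erase j := by
        ext x
        simp only [Finset.mem_union, Finset.mem_erase, Finset.mem_insert, Finset.mem_singleton]
        constructor
        · rintro (⟨h, _, h'⟩ | rfl | rfl)
          · exact ⟨h, h'⟩
          · exact ⟨hvj, hvU⟩
          · exact ⟨hij, hiU⟩
        · rintro ⟨h, h'⟩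
          by_cases hxi : x = i
          · exact Or.inr (Or.inr hxi)
          · exact Or.inl ⟨h, hxi, h'⟩
      rw [e2] at g2
      have e3 : (face (U.erase i) ⊔ face {v, i}) ⊓ face (U.erase j) =
          face ((U.erase i).erase j) ⊔ face {v, i} := by
        rw [inf_sup_right, ← hinf, ← hinf]
        congr 2
        · ext x
          simp only [Finset.mem_inter, Finset.mem_erase]
          tauto
        · ext x
          simp only [Finset.mem_inter, Finset.mem_erase, Finset.mem_insert, Finset.mem_singleton]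
          constructor
          · rintro ⟨h, _⟩; exact h
          · intro h
            refine ⟨h, ?_⟩
            rcases h with rfl | rfl
            · exact ⟨hvj, hvU⟩
            · exact ⟨hij, hiU⟩
      have g3 := hpush (face (U.erase i) ⊔ face {v, i}) (face (U.erase j)) (by rw [e3]; exact g2)
      have e4 : face (U.erase i) ⊔ face {v, i} ⊔ face (U.erase j) = Fa face (Hn U {i, j}) := by
        rw [← horn_eq hinf]
        unfold hornL
        rw [Finset.sup_insert, Finset.sup_singleton, sup_assoc]
        congr 1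
        rw [sup_eq_right]
        apply face_mono hinf
        intro x hx
        rw [Finset.mem_insert, Finset.mem_singleton] at hx
        rw [Finset.mem_erase]
        rcases hx with rfl | rfl
        · exact ⟨hvj, hvU⟩
        · exact ⟨hij, hiU⟩
      rw [e4] at g3
      exact hcancel _ _ _ g3 g1 (Fa_le_face hinf fun X hX => hX.1)
    · obtain ⟨t, ht⟩ : T.Nonempty := Finset.card_pos.1 (by omega)
      have htU := hTU.1 ht
      have hc : (T.erase t).card = T.card - 1 := Finset.card_erase_of_mem ht
      have hlt : (T.erase t).card < n := by omega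
      have h3 := ih _ hlt (U.erase t) (T.erase t)
        (by
          refine ⟨Finset.erase_subset_erase t hTU.1, ?_⟩
          intro hsub
          have : v ∈ T.erase t := hsub (Finset.mem_erase.2 ⟨fun h => hvT (h ▸ ht), hvU⟩)
          exact hvT (Finset.mem_of_mem_erase this)) (by omega) rfl
      have h4 := horn_step R hbot hinf hpush U (T.erase t) t (Finset.notMem_erase t T) h3
      rw [Finset.insert_erase ht] at h4
      have h5 := ih _ hlt U (T.erase t)
        (Finset.ssubset_of_subset_of_ssubset (Finset.erase_subset _ _) hTU) (by omega) rfl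
      exact hcancel _ _ _ h4 h5 (Fa_le_face hinf fun X hX => hX.1)

theorem lat_HORN' (hbot : face ∅ = ⊥) (hinf : ∀ U V, face (U ∩ V) = face U ⊓ face V)
    (R : L → L → Prop)
    (htrans : ∀ K₁ K₂ K₃, R K₁ K₂ → R K₂ K₃ → R K₁ K₃)
    (hcancel : ∀ K₁ K₂ K₃, R K₁ K₂ → R K₁ K₃ → K₂ ≤ K₃ → R K₂ K₃)
    (hpush : ∀ K₁ K₂, R (K₁ ⊓ K₂) K₂ → R K₁ (K₁ ⊔ K₂))
    (hpt : ∀ (U : Finset (Fin (N + 1))) (v : Fin (N + 1)), v ∈ U → R (face {v}) (face U))
    (U T : Finset (Fin (N + 1))) (hTU : T ⊂ U) (hT : T.Nonempty) :
    R (hornL face U T) (face U) := by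
  rw [horn_eq hinf]
  induction hn : T.card using Nat.strong_induction_on generalizing U T with
  | _ n ih =>
    obtain ⟨v, hvU, hvT⟩ := Finset.exists_of_ssubset hTU
    obtain ⟨t, ht⟩ := hT
    have htU := hTU.1 ht
    rcases (T.erase t).eq_empty_or_nonempty with hE | hE
    · have hTt : T = {t} := by
        rw [← Finset.insert_erase ht, hE]
        rfl
      have e1 : Fa face (Hn U T) = face (U.erase t) := by
        rw [← horn_eq hinf, hTt]
        unfold hornL
        rw [Finset.sup_singleton]
      rw [e1]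
      exact hcancel _ _ _ (hpt (U.erase t) v (Finset.mem_erase.2 ⟨fun h => hvT (h ▸ ht), hvU⟩))
        (hpt U v hvU) (face_mono hinf (Finset.erase_subset _ _))
    · have hlt : (T.erase t).card < n := by
        rw [← hn]
        exact Finset.card_erase_lt_of_mem ht
      have h3 := ih _ hlt (U.erase t) (T.erase t)
        (by
          refine ⟨Finset.erase_subset_erase t hTU.1, ?_⟩
          intro hsub
          have : v ∈ T.erase t := hsub (Finset.mem_erase.2 ⟨fun h => hvT (h ▸ ht), hvU⟩)
          exact hvT (Finset.mem_of_mem_erase this)) hE rfl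
      have h4 := horn_step R hbot hinf hpush U (T.erase t) t (Finset.notMem_erase t T) h3
      rw [Finset.insert_erase ht] at h4
      have h5 := ih _ hlt U (T.erase t)
        (Finset.ssubset_of_subset_of_ssubset (Finset.erase_subset _ _) hTU) hE rfl
      exact hcancel _ _ _ h4 h5 (Fa_le_face hinf fun X hX => hX.1)

end

end Pool.Agent.Helper7.FL2
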