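import Pool.Agent.Helper58.FL2.Comb

/-!
# Faces of `V[m](B)`
-/

open CategoryTheory MonoidalCategory Opposite

set_option autoImplicit false

namespace Pool.Agent.Helper7.FL2

open FL

noncomputable section

variable {C : Type} [SmallCategory C]

/-- The product of the labels `B j` of the gaps `j` inside the image of the gap `t`. -/
def Prd {k m : ℕ} (p : Fin (k + 1) →o Fin (m + 1)) (B : Fin m → SP C) (t : Fin k) : SP C where
  obj c :=
    { obj := fun l => ∀ j, Jump p t j → ((B j).obj c).obj l
      map := fun α => ↾ fun x j h => ((B j).obj c).map α (x j h)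
      map_id := fun l => by
        refine ConcreteCategory.hom_ext _ _ fun x => ?_
        funext j h
        exact sset_id _ _
      map_comp := fun α β => by
        refine ConcreteCategory.hom_ext _ _ fun x => ?_
        funext j h
        exact sset_comp _ α β _ }
  map f :=
    { app := fun l => ↾ fun x j h => ((B j).map f).app l (x j h)
      naturality := fun l l' α => by
        refine ConcreteCategory.hom_ext _ _ fun x => ?_
        funext j h
        exact sp_nat (B j) f α _ }
  map_id c := by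
    refine NatTrans.ext (funext fun l => ?_)
    refine ConcreteCategory.hom_ext _ _ fun x => ?_
    funext j h
    exact sp_id (B j) _
  map_comp f g := by
    refine NatTrans.ext (funext fun l => ?_)
    refine ConcreteCategory.hom_ext _ _ fun x => ?_
    funext j h
    exact sp_comp (B j) f g _

/-- The projections of `Prd`. -/
def prj {k m : ℕ} (p : Fin (k + 1) →o Fin (m + 1)) (B : Fin m → SP C) (t : Fin k) (j : Fin m)
    (h : Jump p t j) : Prd p B t ⟶ B j where
  app _ :=
    { app := fun _ => ↾ fun x => x j h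
      naturality := fun _ _ _ => rfl }
  naturality _ _ _ := rfl

theorem prd_ext {k m : ℕ} {p : Fin (k + 1) →o Fin (m + 1)} {B : Fin m → SP C} {t : Fin k}
    {c : Cᵒᵖ} {l : SimplexCategoryᵒᵖ} {x y : ((Prd p B t).obj c).obj l}
    (h : ∀ j (hj : Jump p t j), ((prj p B t j hj).app c).app l x =
      ((prj p B t j hj).app c).app l y) : x = y := by
  funext j hj
  exact h j hj

/-- The canonical map. -/
def fmap {k m : ℕ} (p : Fin (k + 1) →o Fin (m + 1)) (B : Fin m → SP C) :
    V (Prd p B) ⟶ V B :=
  V.mapW p (prj p B)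

theorem fmap_inj {k m : ℕ} (p : Fin (k + 1) →o Fin (m + 1)) (hp : Function.Injective p)
    (B : Fin m → SP C) (θ : Wr C) (l : SimplexCategoryᵒᵖ) (u v : VS (Prd p B) θ l)
    (h : u.pushW p (prj p B) = v.pushW p (prj p B)) : u = v := by
  have hf : p.comp u.f = p.comp v.f := congrArg VS.f h
  have hf' : u.f = v.f := by
    refine OrderHom.ext _ _ (funext fun i => ?_)
    exact hp (DFunLike.congr_fun hf i)
  refine VS.ext' hf' fun i t hi hi' => ?_
  refine prd_ext fun j hj => ?_
  have e1 := VS.pushW_g p (prj p B) u hi hj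
  have e2 := VS.pushW_g p (prj p B) v hi' hj
  refine e1.symm.trans (Eq.trans ?_ e2)
  have key : ∀ (a b : VS B θ l) (_ : a = b) (h1 : Jump a.f i j) (h2 : Jump b.f i j),
      a.g i j h1 = b.g i j h2 := by
    rintro a b rfl h1 h2
    rfl
  exact key _ _ h _ _

/-- The simplex of `V (Prd p B)` attached to a simplex of `V B` whose map factors through `p`. -/
def lft {k m : ℕ} (p : Fin (k + 1) →o Fin (m + 1)) (B : Fin m → SP C) {θ : Wr C}
    {l : SimplexCategoryᵒᵖ} (f : Fin (θ.len + 1) →o Fin (k + 1))
    (g : ∀ (i : Fin θ.len) (j : Fin m), Jump (p.comp f) i j →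
      ((B j).obj (op (θ.obj i))).obj l) : VS (Prd p B) θ l where
  f := f
  g i _ h := fun j h' => g i j (h.comp h')

theorem lft_push {k m : ℕ} (p : Fin (k + 1) →o Fin (m + 1)) (B : Fin m → SP C) {θ : Wr C}
    {l : SimplexCategoryᵒᵖ} (f : Fin (θ.len + 1) →o Fin (k + 1))
    (g : ∀ (i : Fin θ.len) (j : Fin m), Jump (p.comp f) i j →
      ((B j).obj (op (θ.obj i))).obj l) :
    (lft p B f g).pushW p (prj p B) = ⟨p.comp f, g⟩ := by
  refine VS.ext' rfl fun i j h h' => ?_
  obtain ⟨t, ht, ht'⟩ := Jump.split (f := f) (g := p) h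
  exact VS.pushW_g p (prj p B) (lft p B f g) (i := i) ht ht'

theorem vface_iso {m : ℕ} (B : Fin m → SP C) {k : ℕ} (p : Fin (k + 1) ↪o Fin (m + 1)) :
    ∃ (B' : Fin k → SP C) (f : V B' ⟶ V B), (∀ a, Mono (f.app a)) ∧
      Sb.range f = vface B (Finset.univ.map p.toEmbedding) ∧
      ∀ (θ : (Wr C)ᵒᵖ) (l : SimplexCategoryᵒᵖ) (u : VS B' θ.unop l),
        ((f.app θ).app l u : VS B θ.unop l).f = p.toOrderHom.comp u.f := by
  refine ⟨Prd p.toOrderHom B, fmap p.toOrderHom B, ?_, ?_, ?_⟩
  · intro a
    have : ∀ l, Mono (((fmap p.toOrderHom B).app a).app l) := by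
      intro l
      rw [mono_iff_injective]
      intro u v h
      exact fmap_inj p.toOrderHom p.injective B a.unop l u v h
    exact NatTrans.mono_of_mono_app _
  · refine Sb.ext ?_
    funext θ l
    ext v
    constructor
    · rintro ⟨u, rfl⟩
      intro i
      rw [Finset.mem_map]
      exact ⟨(u : VS (Prd p.toOrderHom B) θ.unop l).f i, Finset.mem_univ _, rfl⟩
    · intro hv
      obtain ⟨f, g⟩ := (v : VS B θ.unop l)
      have hv' : ∀ i, ∃ t, p t = f i := by
        intro i
        have := hv i
        rw [Finset.mem_map] at this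
        obtain ⟨t, _, ht⟩ := this
        exact ⟨t, ht⟩
      choose f' hf' using hv'
      have hmono : Monotone f' := by
        intro i j hij
        rw [← p.le_iff_le, hf', hf']
        exact f.monotone hij
      have hfe : f = p.toOrderHom.comp ⟨f', hmono⟩ := by
        refine OrderHom.ext _ _ (funext fun i => ?_)
        exact (hf' i).symm
      subst hfe
      exact ⟨lft p.toOrderHom B ⟨f', hmono⟩ g, lft_push p.toOrderHom B ⟨f', hmono⟩ g⟩
  · intro θ l u
    rfl

/-! ### The pullback of `V[r](B)` along a map from a simplex -/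

section Simplex

variable {r N : ℕ} (B : Fin r → SP C)
  (s : (SSet.stdSimplex.obj (SimplexCategory.mk N) : SSet.{0}) ⟶
    SSet.stdSimplex.obj (SimplexCategory.mk r))

/-- The fundamental simplex. -/
def fund (N : ℕ) : (SSet.stdSimplex.obj (SimplexCategory.mk N) : SSet.{0}).obj
    (op (SimplexCategory.mk N)) :=
  SSet.stdSimplex.objEquiv.symm (𝟙 _)

/-- The map of simplices as a monotone map. -/
def pp : Fin (N + 1) →o Fin (r + 1) := sh s (fund N)

/-- The monotone map of a simplex of the standard simplex. -/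
abbrev shI {n : ℕ} (x : (SSet.stdSimplex.obj (SimplexCategory.mk N) : SSet.{0}).obj
    (op (SimplexCategory.mk n))) : Fin (n + 1) →o Fin (N + 1) :=
  sh (𝟙 (SSet.stdSimplex.obj (SimplexCategory.mk N) : SSet.{0})) x

theorem sh_eq {n : ℕ} (x : (SSet.stdSimplex.obj (SimplexCategory.mk N) : SSet.{0}).obj
    (op (SimplexCategory.mk n))) : sh s x = (pp s).comp (shI x) := by
  have e : x = (SSet.stdSimplex.obj (SimplexCategory.mk N) : SSet.{0}).map
      (Quiver.Hom.op (SimplexCategory.Hom.mk (shI x) :
        SimplexCategory.mk n ⟶ SimplexCategory.mk N)) (fund N) := by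
    unfold fund
    rw [SSet.stdSimplex.map_objEquiv_symm]
    apply SSet.stdSimplex.objEquiv.injective
    rw [Equiv.apply_symm_apply, Category.comp_id]
    rfl
  conv_lhs => rw [e]
  exact sh_map s (shI x) (fund N)

/-- The simplex with a given monotone map. -/
def ofI {n : ℕ} (f : Fin (n + 1) →o Fin (N + 1)) :
    (SSet.stdSimplex.obj (SimplexCategory.mk N) : SSet.{0}).obj (op (SimplexCategory.mk n)) :=
  SSet.stdSimplex.objEquiv.symm (SimplexCategory.Hom.mk f)

theorem shI_ofI {n : ℕ} (f : Fin (n + 1) →o Fin (N + 1)) : shI (ofI f) = f := rfl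

theorem shI_inj {n : ℕ} {x y : (SSet.stdSimplex.obj (SimplexCategory.mk N) : SSet.{0}).obj
    (op (SimplexCategory.mk n))} (h : shI x = shI y) : x = y := by
  apply SSet.stdSimplex.objEquiv.injective
  exact SimplexCategory.Hom.ext _ _ h

theorem jmp {n : ℕ} {x : (SSet.stdSimplex.obj (SimplexCategory.mk N) : SSet.{0}).obj
    (op (SimplexCategory.mk n))} {i : Fin n} {j : Fin r} :
    Jump (sh s x) i j ↔ Jump ((pp s).comp (shI x)) i j := by
  rw [sh_eq]

/-- The comparison map on simplices. -/
def cmpS {θ : Wr C} {k : SimplexCategoryᵒᵖ} (u : PhS B s θ k) : VS (Prd (pp s) B) θ k where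
  f := shI u.x
  g i _ h := fun j h' => u.g i j ((jmp s).mpr (h.comp h'))

theorem cmpS_bij (θ : Wr C) (k : SimplexCategoryᵒᵖ) :
    Function.Bijective (cmpS B s : PhS B s θ k → VS (Prd (pp s) B) θ k) := by
  constructor
  · intro u v h
    have hx : u.x = v.x := shI_inj (congrArg VS.f h)
    refine PhS.ext' hx fun i j hi hi' => ?_
    obtain ⟨t, ht, ht'⟩ := Jump.split (f := shI u.x) (g := pp s) ((jmp s).mp hi)
    have key : ∀ (a b : VS (Prd (pp s) B) θ k) (_ : a = b) (h1 : Jump a.f i t)
        (h2 : Jump b.f i t), a.g i t h1 j ht' = b.g i t h2 j ht' := by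
      rintro a b rfl h1 h2
      rfl
    have ht2 : Jump (shI v.x) i t := by
      rw [← hx]
      exact ht
    exact key _ _ h ht ht2
  · intro v
    refine ⟨{ x := ofI v.f
              g := fun i j h => v.g i (Jump.split (f := v.f) (g := pp s)
                ((jmp s).mp h)).choose (Jump.split (f := v.f) (g := pp s)
                ((jmp s).mp h)).choose_spec.1 j (Jump.split (f := v.f) (g := pp s)
                ((jmp s).mp h)).choose_spec.2 }, ?_⟩
    refine VS.ext' rfl fun i t h h' => ?_
    funext j hj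
    have h2 := (Jump.split (f := v.f) (g := pp s) (h'.comp hj)).choose_spec
    have e : (Jump.split (f := v.f) (g := pp s) (h'.comp hj)).choose = t := h2.2.unique hj
    have aux : ∀ t' (e : t' = t) (h1 : Jump v.f i t') (h2 : Jump (pp s) t' j),
        v.g i t' h1 j h2 = v.g i t h' j hj := by
      rintro t' rfl h1 h2
      rfl
    exact aux _ e _ _

/-- The comparison map. -/
def cmp : Ph B s ⟶ V (Prd (pp s) B) where
  app θ :=
    { app := fun k => ↾ fun (u : PhS B s θ.unop k) => cmpS B s u
      naturality := fun _ _ _ => rfl }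
  naturality θ θ' φ := by
    refine NatTrans.ext (funext fun k => ?_)
    refine ConcreteCategory.hom_ext _ _ fun (u : PhS B s θ.unop k) => ?_
    refine VS.ext' rfl fun i t h h' => ?_
    funext j hj
    obtain ⟨v, hv, hv'⟩ := Jump.split (f := Wr.Hom.f φ.unop) (g := shI u.x) h'
    have h3 : Jump (sh s (u.mapθ φ.unop).x) i j := (jmp s).mpr (h.comp hj)
    refine (PhS.mapθ_g φ.unop u hv ((jmp s).mpr (hv'.comp hj)) h3).trans ?_
    exact (congrFun (congrFun (VS.mapθ_g φ.unop (cmpS B s u) hv hv') j) hj).symm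

theorem cmp_isIso : IsIso (cmp B s) := by
  rw [NatTrans.isIso_iff_isIso_app]
  intro θ
  rw [NatTrans.isIso_iff_isIso_app]
  intro k
  rw [isIso_iff_bijective]
  exact cmpS_bij B s θ.unop k

theorem Ph_simplex {r N : ℕ} (B : Fin r → SP C)
    (s : (SSet.stdSimplex.obj (SimplexCategory.mk N) : SSet.{0}) ⟶
      SSet.stdSimplex.obj (SimplexCategory.mk r)) :
    ∃ (B' : Fin N → SP C) (e : Ph B s ≅ V B'), ∀ (θ : (Wr C)ᵒᵖ) (k : SimplexCategoryᵒᵖ)
      (u : PhS B s θ.unop k), ((e.hom.app θ).app k u : VS B' θ.unop k).f = sh (𝟙 _) u.x := by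
  have := cmp_isIso B s
  exact ⟨Prd (pp s) B, asIso (cmp B s), fun _ _ _ => rfl⟩

end Simplex

end

end Pool.Agent.Helper7.FL2
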