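import Pool.Agent.Helper58.FL2.Flag2
import Pool.Agent.Helper61.FL2.ES

/-!
# Mapping presheaves of `ND D`
-/

open CategoryTheory MonoidalCategory Opposite

set_option autoImplicit false

namespace Pool.Agent.Helper7.FL2

open FL

noncomputable section

/-! ### Terminal objects -/

theorem disc_uniq (a b : Discrete PUnit.{1}) (f g : a ⟶ b) : f = g := Subsingleton.elim _ _

theorem ptT_uniq : ∀ {n : ℕ} {a : Th n} (f g : a ⟶ ptT n), f = g
  | 0, a, f, g => disc_uniq a _ f g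
  | (_ + 1), _, f, g => Wr.toPt_unique f g

def toPtT : ∀ {n : ℕ} (a : Th n), a ⟶ ptT n
  | 0, (a : Discrete PUnit.{1}) => (Discrete.eqToHom (Subsingleton.elim _ _) :
      a ⟶ (⟨PUnit.unit⟩ : Discrete PUnit.{1}))
  | (n + 1), a => Wr.toPt (C := Th n) a

theorem tow_uniq : ∀ {n : ℕ} {a : Th n} (f g : a ⟶ (tower n).obj (ptT n, op 0)), f = g
  | 0, a, f, g => disc_uniq a _ f g
  | (_ + 1), _, f, g => Wr.toPt_unique f g

/-- The map to the terminal object of `Gn n`. -/
def toG {n : ℕ} (g : Gn n) : g ⟶ (ptT n, op 0) :=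
  (toPtT g.1, (homOfLE (Fin.zero_le g.2.unop)).op)

theorem toG_uniq {n : ℕ} {g : Gn n} (u v : g ⟶ (ptT n, op 0)) : u = v :=
  Prod.ext (ptT_uniq _ _) (Subsingleton.elim _ _)

theorem ND_pt {n : ℕ} (D : SP (Gn n)) : IsIso ((eps D).app (op (ptT n, op 0))) := by
  rw [NatTrans.isIso_iff_isIso_app]
  intro k
  rw [isIso_iff_bijective]
  constructor
  · intro (φ : MpS (filt (rep ((tower n).obj (ptT n, op 0)))) D k.unop)
      (ψ : MpS (filt (rep ((tower n).obj (ptT n, op 0)))) D k.unop) h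
    have h' : φ.app (op (ptT n, op 0)) k (𝟙 _) (𝟙 ((tower n).obj (ptT n, op 0))) =
      ψ.app (op (ptT n, op 0)) k (𝟙 _) (𝟙 ((tower n).obj (ptT n, op 0))) := h
    have key : ∀ (φ : MpS (filt (rep ((tower n).obj (ptT n, op 0)))) D k.unop)
        (g : (Gn n)ᵒᵖ) (l : SimplexCategoryᵒᵖ) (s : l.unop ⟶ k.unop)
        (u : (tower n).obj g.unop ⟶ (tower n).obj (ptT n, op 0)),
        φ.app g l s u = (D.map (toG g.unop).op).app l ((D.obj (op (ptT n, op 0))).map s.op
          (φ.app (op (ptT n, op 0)) k (𝟙 _) (𝟙 ((tower n).obj (ptT n, op 0))))) := by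
      intro φ g l s u
      rw [← φ.nat_right (op (ptT n, op 0)) s.op (𝟙 _) (𝟙 ((tower n).obj (ptT n, op 0)))]
      rw [← φ.nat_left]
      have e1 : s = s.op.unop ≫ 𝟙 k.unop := (Category.comp_id s).symm
      rw [← e1]
      exact congrArg (φ.app g l s) (tow_uniq _ _)
    refine MpS.ext ?_
    funext g l s u
    refine (key φ g l s u).trans (Eq.trans ?_ (key ψ g l s u).symm)
    rw [h']
  · intro d
    refine ⟨({ app := fun g l s u => (D.map (toG g.unop).op).app l
                ((D.obj (op (ptT n, op 0))).map s.op d)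
               nat_left := fun {g g'} f l s u => by
                 rw [← sp_comp]
                 refine congrArg (fun t => (D.map t).app l _) ?_
                 refine Quiver.Hom.unop_inj ?_
                 exact toG_uniq _ _
               nat_right := fun g {l l'} α s u => by
                 rw [← sp_nat]
                 refine congrArg ((D.map (toG g.unop).op).app l') ?_
                 exact sset_comp _ s.op α d } :
        MpS (filt (rep ((tower n).obj (ptT n, op 0)))) D k.unop), ?_⟩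
    show (D.map (toG (ptT n, op 0)).op).app k ((D.obj (op (ptT n, op 0))).map (𝟙 _) d) = d
    rw [sset_id]
    have e : toG (ptT n, op 0) = 𝟙 _ := toG_uniq _ _
    rw [e]
    exact sp_id D d

/-! ### Constant simplices -/

/-- The constant simplex of `D` at `g` given by a vertex of `D` at the terminal object. -/
def cd {n : ℕ} (D : SP (Gn n)) (d : (D.obj (op (ptT n, op 0))).obj (op (SimplexCategory.mk 0)))
    (g : (Gn n)ᵒᵖ) (l : SimplexCategoryᵒᵖ) : (D.obj g).obj l :=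
  (D.map (toG g.unop).op).app l (cst _ d l)

theorem cd_map {n : ℕ} (D : SP (Gn n))
    (d : (D.obj (op (ptT n, op 0))).obj (op (SimplexCategory.mk 0)))
    {g g' : (Gn n)ᵒᵖ} (u : g ⟶ g') (l : SimplexCategoryᵒᵖ) :
    (D.map u).app l (cd D d g l) = cd D d g' l := by
  unfold cd
  rw [← sp_comp]
  refine congrArg (fun t => (D.map t).app l _) ?_
  refine Quiver.Hom.unop_inj ?_
  exact toG_uniq _ _

theorem cd_mapk {n : ℕ} (D : SP (Gn n))
    (d : (D.obj (op (ptT n, op 0))).obj (op (SimplexCategory.mk 0)))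
    (g : (Gn n)ᵒᵖ) {l l' : SimplexCategoryᵒᵖ} (α : l ⟶ l') :
    (D.obj g).map α (cd D d g l) = cd D d g l' := by
  unfold cd
  rw [← sp_nat, cst_map]

theorem map_cst {n : ℕ} (D : SP (Gn n))
    (d : (D.obj (op (ptT n, op 0))).obj (op (SimplexCategory.mk 0)))
    {g' : (Gn n)ᵒᵖ} (u : op (ptT n, op 0) ⟶ g') (l : SimplexCategoryᵒᵖ) :
    (D.map u).app l (cst _ d l) = cd D d g' l := by
  unfold cd
  refine congrArg (fun t => (D.map t).app l _) ?_
  refine Quiver.Hom.unop_inj ?_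
  exact toG_uniq _ _

section Succ

variable {n : ℕ}

theorem cst_vlev (D : SP (Gn (n + 1))) (d : Vt (C := Th n) (level D 0)) (i : Fin (n + 2))
    (l : SimplexCategoryᵒᵖ) :
    cst ((level D i).obj (op (ptT (n + 1)))) (vlev D d i) l =
      cd D d (op (ptT (n + 1), op i)) l := by
  refine (app_cst ((levelMap D (Fin.zero_le i)).app (op (ptT (n + 1)))) d l).symm.trans ?_
  exact map_cst D d _ l

/-- Values of a map `filt X ⟶ D` at simplices which are images of vertices. -/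
theorem f_cst {X : SP (Th (n + 1))} {D : SP (Gn (n + 1))} (f : filt X ⟶ D)
    (x : Vt (C := Th n) X) (g : (Gn (n + 1))ᵒᵖ) (l : SimplexCategoryᵒᵖ)
    (u : (tower (n + 1)).obj g.unop ⟶ ptT (n + 1)) :
    (f.app g).app l ((X.map u.op).app l (cst (X.obj (op (ptT (n + 1)))) x l)) =
      cd D (vf f x) g l := by
  have e : u = (tower (n + 1)).map (toG g.unop) := ptT_uniq _ _
  rw [e]
  refine (hom_nat f (toG g.unop).op (cst (X.obj (op (ptT (n + 1)))) x l)).trans ?_
  refine congrArg ((D.map (toG g.unop).op).app l) ?_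
  exact app_cst (f.app (op (ptT (n + 1), op 0))) x l

/-- The vertex `b` of `[1](c)`, as a map of `Gn (n + 1)`. -/
def vG (g : Gn n) (b : Fin 2) : (ptT (n + 1), op g.2.unop.succ) ⟶ (segG n).obj g :=
  ((vtx (seg g.1) b : (ptT (n + 1)) ⟶ (seg g.1 : Wr (Th n))), 𝟙 _)

/-- The simplex of `FHm D d d'` given by a simplex of `D` with the correct ends. -/
def mkF (D : SP (Gn (n + 1))) (d d' : Vt (C := Th n) (level D 0)) (g : (Gn n)ᵒᵖ)
    (k : SimplexCategoryᵒᵖ) (y : (D.obj (op ((segG n).obj g.unop))).obj k)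
    (h0 : (D.map (vG g.unop 0).op).app k y = cd D d _ k)
    (h1 : (D.map (vG g.unop 1).op).app k y = cd D d' _ k) : ((FHm D d d').obj g).obj k :=
  ⟨y, Prod.ext (h0.trans (cst_vlev D d _ k).symm) (h1.trans (cst_vlev D d' _ k).symm)⟩

/-- The underlying simplex. -/
def valF {D : SP (Gn (n + 1))} {d d' : Vt (C := Th n) (level D 0)} {g : (Gn n)ᵒᵖ}
    {k : SimplexCategoryᵒᵖ} (z : ((FHm D d d').obj g).obj k) :
    (D.obj (op ((segG n).obj g.unop))).obj k := z.1

theorem valF_inj {D : SP (Gn (n + 1))} {d d' : Vt (C := Th n) (level D 0)} {g : (Gn n)ᵒᵖ}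
    {k : SimplexCategoryᵒᵖ} {z z' : ((FHm D d d').obj g).obj k} (h : valF z = valF z') :
    z = z' := Subtype.ext h

theorem valF_mk (D : SP (Gn (n + 1))) (d d' : Vt (C := Th n) (level D 0)) (g : (Gn n)ᵒᵖ)
    (k : SimplexCategoryᵒᵖ) (y : (D.obj (op ((segG n).obj g.unop))).obj k)
    (h0 : (D.map (vG g.unop 0).op).app k y = cd D d _ k)
    (h1 : (D.map (vG g.unop 1).op).app k y = cd D d' _ k) :
    valF (mkF D d d' g k y h0 h1) = y := rfl

theorem valF_zero {D : SP (Gn (n + 1))} {d d' : Vt (C := Th n) (level D 0)} {g : (Gn n)ᵒᵖ}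
    {k : SimplexCategoryᵒᵖ} (z : ((FHm D d d').obj g).obj k) :
    (D.map (vG g.unop 0).op).app k (valF z) = cd D d _ k :=
  (congrArg Prod.fst z.2).trans (cst_vlev D d _ k)

theorem valF_one {D : SP (Gn (n + 1))} {d d' : Vt (C := Th n) (level D 0)} {g : (Gn n)ᵒᵖ}
    {k : SimplexCategoryᵒᵖ} (z : ((FHm D d d').obj g).obj k) :
    (D.map (vG g.unop 1).op).app k (valF z) = cd D d' _ k :=
  (congrArg Prod.snd z.2).trans (cst_vlev D d' _ k)

theorem valF_map {D : SP (Gn (n + 1))} {d d' : Vt (C := Th n) (level D 0)} {g g' : (Gn n)ᵒᵖ}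
    (u : g ⟶ g') {k : SimplexCategoryᵒᵖ} (z : ((FHm D d d').obj g).obj k) :
    valF (((FHm D d d').map u).app k z) = (D.map ((segG n).map u.unop).op).app k (valF z) := rfl

theorem valF_mapk {D : SP (Gn (n + 1))} {d d' : Vt (C := Th n) (level D 0)} {g : (Gn n)ᵒᵖ}
    {k l : SimplexCategoryᵒᵖ} (α : k ⟶ l) (z : ((FHm D d d').obj g).obj k) :
    valF (((FHm D d d').obj g).map α z) = (D.obj _).map α (valF z) := rfl

/-- The underlying simplex of a simplex of a mapping presheaf. -/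
theorem Hm_zero {X : SP (Th (n + 1))} {x y : Vt (C := Th n) X} {c : (Th n)ᵒᵖ}
    {k : SimplexCategoryᵒᵖ} (z : ((Hm (C := Th n) X x y).obj c).obj k) :
    (X.map (Quiver.Hom.op (vtx (seg c.unop) 0 : (Wr.pt : Wr (Th n)) ⟶ seg c.unop))).app k
      (Hm.val (C := Th n) z) = cst (X.obj (op (ptT (n + 1)))) x k := congrArg Prod.fst z.2

theorem Hm_one {X : SP (Th (n + 1))} {x y : Vt (C := Th n) X} {c : (Th n)ᵒᵖ}
    {k : SimplexCategoryᵒᵖ} (z : ((Hm (C := Th n) X x y).obj c).obj k) :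
    (X.map (Quiver.Hom.op (vtx (seg c.unop) 1 : (Wr.pt : Wr (Th n)) ⟶ seg c.unop))).app k
      (Hm.val (C := Th n) z) = cst (X.obj (op (ptT (n + 1)))) y k := congrArg Prod.snd z.2

/-- The image of the vertex `b` of `[1](c)` under the truncation. -/
theorem tow_vG (g : Gn n) (b : Fin 2) :
    (tower (n + 1)).map (vG g b) =
      (Wr.toPt ((tower (n + 1)).obj (ptT (n + 1), op g.2.unop.succ) : Wr (Th n)) ≫
        (vtx (seg ((tower n).obj g)) b : (Wr.pt : Wr (Th n)) ⟶ seg ((tower n).obj g)) :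
        ((tower (n + 1)).obj (ptT (n + 1), op g.2.unop.succ) : Wr (Th n)) ⟶
          seg ((tower n).obj g)) := by
  refine Wr.hom_ext' rfl fun (i : Fin 0) _ _ _ => i.elim0

theorem f_ends {X : SP (Th (n + 1))} {D : SP (Gn (n + 1))} (f : filt X ⟶ D)
    (g : (Gn n)ᵒᵖ) (k : SimplexCategoryᵒᵖ) (b : Fin 2) (x : Vt (C := Th n) X)
    (z : (X.obj (op (seg ((tower n).obj g.unop) : Wr (Th n)))).obj k)
    (hz : (X.map (Quiver.Hom.op (vtx (seg ((tower n).obj g.unop)) b :
      (Wr.pt : Wr (Th n)) ⟶ seg ((tower n).obj g.unop)))).app k z =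
        cst (X.obj (op (ptT (n + 1)))) x k) :
    (D.map (vG g.unop b).op).app k ((f.app (op ((segG n).obj g.unop))).app k z) =
      cd D (vf f x) _ k := by
  refine (hom_nat f (vG g.unop b).op z).symm.trans ?_
  refine Eq.trans ?_ (f_cst f x (op (ptT (n + 1), op g.unop.2.unop.succ)) k
    (Wr.toPt ((tower (n + 1)).obj (ptT (n + 1), op g.unop.2.unop.succ) : Wr (Th n))))
  refine congrArg ((f.app (op (ptT (n + 1), op g.unop.2.unop.succ))).app k) ?_
  rw [← hz]
  refine Eq.trans ?_ (sp_comp X _ _ z)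
  exact congrArg (fun t => (X.map (Quiver.Hom.op t)).app k z) (tow_vG g.unop b)

/-- The underlying monotone map of a truncated morphism. -/
theorem tow_f {θ θ' : Wr (Th n)} {i j : Fin (n + 1)}
    (m : ((θ, op j.succ) : Gn (n + 1)) ⟶ ((θ', op i.succ) : Gn (n + 1))) :
    Wr.Hom.f (X := (Wr.map (tr n j)).obj θ) (Y := (Wr.map (tr n i)).obj θ')
      ((tower (n + 1)).map m) = Wr.Hom.f (X := θ) (Y := θ') m.1 := rfl

/-- The components of a truncated morphism. -/
theorem tow_g {θ θ' : Wr (Th n)} {i j : Fin (n + 1)}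
    (m : ((θ, op j.succ) : Gn (n + 1)) ⟶ ((θ', op i.succ) : Gn (n + 1))) (hij : i ≤ j)
    (a : Fin θ.len) (b : Fin θ'.len) (h : Jump (Wr.Hom.f (X := θ) (Y := θ') m.1) a b) :
    Wr.Hom.g (X := (Wr.map (tr n j)).obj θ) (Y := (Wr.map (tr n i)).obj θ')
      ((tower (n + 1)).map m) a b h =
      (tower n).map ((Wr.Hom.g (X := θ) (Y := θ') m.1 a b h, (homOfLE hij).op) :
        ((θ.obj a, op j) : Gn n) ⟶ (θ'.obj b, op i)) := by
  have e := Wr.comp_g (X := (Wr.map (tr n j)).obj θ) (Y := (Wr.map (tr n j)).obj θ')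
    (Z := (Wr.map (tr n i)).obj θ')
    ((Wr.map (tr n j)).map m.1) ((Wr.mapNat (trMap n i j hij)).app θ') (i := a) (j := b) (k := b)
    h (jump_id.mpr rfl)
  refine e.trans ?_
  have e2 := Wr.ofComp_g (X := fun i => (tr n j).obj (θ'.obj i))
    (Y := fun b => (tr n i).obj (θ'.obj b)) (fun b => (trMap n i j hij).app (θ'.obj b)) b
    (jump_id.mpr rfl)
  exact congrArg (fun t => (tr n j).map (Wr.Hom.g (X := θ) (Y := θ') m.1 a b h) ≫ t) e2

theorem tow_seg {g g' : Gn n} (v : g' ⟶ g) :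
    (tower (n + 1)).map ((segG n).map v) = segMap ((tower n).map v) := by
  refine Wr.hom_ext' rfl fun i j h h' => ?_
  obtain rfl : i = j := jump_id.mp h'
  refine (tow_g (θ := seg g'.1) (θ' := seg g.1) ((segG n).map v) (leOfHom v.2.unop) i i
    (jump_id.mpr rfl)).trans ?_
  refine Eq.trans ?_ (Wr.ofComp_g (X := fun _ => (tower n).obj g')
    (Y := fun _ => (tower n).obj g) (fun _ => (tower n).map v) i h').symm
  refine congrArg (fun t => (tower n).map t) ?_
  refine Prod.ext ?_ (Subsingleton.elim _ _)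
  exact Wr.ofComp_g (X := fun _ => g'.1) (Y := fun _ => g.1) (fun _ => v.1) i (jump_id.mpr rfl)

/-- The map `f'`. -/
def fH {X : SP (Th (n + 1))} {D : SP (Gn (n + 1))} (f : filt X ⟶ D) (x y : Vt (C := Th n) X) :
    filt (Hm (C := Th n) X x y) ⟶ FHm D (vf f x) (vf f y) where
  app g :=
    { app := fun k => ↾ fun (z : ((Hm (C := Th n) X x y).obj (op ((tower n).obj g.unop))).obj k) =>
        mkF D (vf f x) (vf f y) g k
          ((f.app (op ((segG n).obj g.unop))).app k (Hm.val (C := Th n) z))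
          (f_ends f g k 0 x _ (Hm_zero z)) (f_ends f g k 1 y _ (Hm_one z))
      naturality := fun k l α => by
        refine ConcreteCategory.hom_ext _ _ fun z => ?_
        exact valF_inj (hom_natk f α _) }
  naturality g g' u := by
    refine NatTrans.ext (funext fun k => ?_)
    refine ConcreteCategory.hom_ext _ _
      fun (z : ((Hm (C := Th n) X x y).obj (op ((tower n).obj g.unop))).obj k) => ?_
    refine valF_inj ?_
    refine Eq.trans ?_ (hom_nat f ((segG n).map u.unop).op (Hm.val (C := Th n) z))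
    refine congrArg ((f.app (op ((segG n).obj g'.unop))).app k) ?_
    exact congrArg (fun t => (X.map (Quiver.Hom.op t)).app k (Hm.val (C := Th n) z))
      (tow_seg u.unop).symm

end Succ

/-! ### Morphisms to `[1](c)` -/

section Wreath

variable {C : Type} [SmallCategory C]

theorem segMap_comp {c c' c'' : C} (f : c ⟶ c') (g : c' ⟶ c'') :
    segMap (f ≫ g) = segMap f ≫ segMap g := by
  refine Wr.hom_ext' rfl fun i j h h' => ?_
  obtain rfl : i = j := jump_id.mp h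
  have e := Wr.comp_g (X := seg c) (Y := seg c') (Z := seg c'')
    (segMap f) (segMap g) (i := i) (j := i) (k := i) (jump_id.mpr rfl) (jump_id.mpr rfl)
  refine (Wr.ofComp_g (X := fun _ => c) (Y := fun _ => c'') _ i h).trans ?_
  refine Eq.trans ?_ e.symm
  exact (congrArg₂ (· ≫ ·)
    (Wr.ofComp_g (X := fun _ => c) (Y := fun _ => c') (fun _ => f) i (jump_id.mpr rfl))
    (Wr.ofComp_g (X := fun _ => c') (Y := fun _ => c'') (fun _ => g) i (jump_id.mpr rfl))).symm

theorem trich {r : ℕ} (F : Fin (r + 1) →o Fin 2) :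
    (∃ b, ∀ t, F t = b) ∨ ∃ a : Fin r, Jump F a (0 : Fin 1) := by
  by_cases h0 : F 0 = 0
  · by_cases h1 : F (Fin.last r) = 0
    · refine Or.inl ⟨0, fun t => ?_⟩
      have := F.monotone (Fin.le_last t)
      rw [h1] at this
      exact le_antisymm this (Fin.zero_le _)
    · refine Or.inr ?_
      obtain ⟨a, _, _, h⟩ := exists_jump F (0 : Fin 1) (p := 0) (q := Fin.last r)
        (by rw [h0]; exact Fin.zero_le _) (by
          have h2 : F (Fin.last r) = 1 := by
            rcases Fin.exists_fin_two.mp ⟨F (Fin.last r), rfl⟩ with h | h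
            · exact absurd h h1
            · exact h
          rw [h2]
          exact le_refl _)
      exact ⟨a, h⟩
  · refine Or.inl ⟨1, fun t => ?_⟩
    have h2 : F 0 = 1 := by
      rcases Fin.exists_fin_two.mp ⟨F 0, rfl⟩ with h | h
      · exact absurd h h0
      · exact h
    have := F.monotone (Fin.zero_le t)
    rw [h2] at this
    exact le_antisymm (Fin.le_last _) this

/-- The collapse onto the gap `a`. -/
def cl (θ : Wr C) (F : Fin (θ.len + 1) →o Fin 2) (a : Fin θ.len) (h : Jump F a (0 : Fin 1)) :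
    θ ⟶ seg (θ.obj a) :=
  ({ f := F
     g := fun _ j' h' => eqToHom (congrArg θ.obj
      (h'.unique ((Subsingleton.elim (0 : Fin 1) j') ▸ h))) } : Wr.Hom θ (seg (θ.obj a)))

theorem cl_factor {θ : Wr C} {c : C} (φ : θ ⟶ seg c) (a : Fin θ.len)
    (h : Jump (Wr.Hom.f φ) a (0 : Fin 1)) :
    φ = cl θ (Wr.Hom.f φ) a h ≫ segMap (Wr.Hom.g φ a 0 h) := by
  refine Wr.hom_ext' rfl fun i (j : Fin 1) h1 h2 => ?_
  obtain rfl : j = 0 := Subsingleton.elim _ _
  obtain rfl : i = a := h1.unique h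
  have e := Wr.comp_g (cl θ (Wr.Hom.f φ) i h) (segMap (Wr.Hom.g φ i 0 h)) (i := i)
    (j := (0 : Fin 1)) (k := (0 : Fin 1)) h (jump_id.mpr rfl)
  refine Eq.trans ?_ e.symm
  have e2 := Wr.ofComp_g (X := fun _ => θ.obj i) (Y := fun _ => c)
    (fun _ => Wr.Hom.g φ i 0 h) (0 : Fin 1) (jump_id.mpr rfl)
  refine Eq.trans ?_ (congrArg (fun t => Wr.Hom.g (cl θ (Wr.Hom.f φ) i h) i (0 : Fin 1) h ≫ t)
    e2).symm
  exact (Category.id_comp _).symm

theorem const_factor {θ : Wr C} {c : C} (φ : θ ⟶ seg c) (b : Fin 2)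
    (h : ∀ t, Wr.Hom.f φ t = b) : φ = Wr.toPt θ ≫ vtx (seg c) b := by
  refine Wr.hom_ext' (OrderHom.ext _ _ (funext h)) fun i j h1 _ => ?_
  exfalso
  have h2 := h1.1
  have h3 := h1.2
  rw [h] at h2 h3
  exact lt_irrefl _ (h2.trans_lt ((Fin.castSucc_lt_succ).trans_le h3))

end Wreath

/-! ### Simplices of `ND (FHm D d d')` and simplices of `ND D` with fixed ends -/

section Main

variable {n : ℕ} {D : SP (Gn (n + 1))} {d d' : Vt (C := Th n) (level D 0)}

/-- The two vertices. -/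
def dd (d d' : Vt (C := Th n) (level D 0)) (b : Fin 2) : Vt (C := Th n) (level D 0) :=
  if b = 0 then d else d'

theorem valF_end {g : (Gn n)ᵒᵖ} {k : SimplexCategoryᵒᵖ} (z : ((FHm D d d').obj g).obj k)
    (b : Fin 2) : (D.map (vG g.unop b).op).app k (valF z) = cd D (dd d d' b) _ k := by
  rcases Fin.exists_fin_two.mp ⟨b, rfl⟩ with rfl | rfl
  · exact valF_zero z
  · exact valF_one z

/-- The relation between morphisms to `[1](c)` and simplices of `D` defined by a simplex of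
`ND (FHm D d d')`. -/
def RR' (D : SP (Gn (n + 1))) (d d' : Vt (C := Th n) (level D 0)) {c : Th n} {k : SimplexCategory}
    (ψ : MpS (filt (rep c)) (FHm D d d') k) (g : (Gn (n + 1))ᵒᵖ) (l : SimplexCategoryᵒᵖ)
    (s : l.unop ⟶ k) (u : (tower (n + 1)).obj g.unop ⟶ (seg c : Wr (Th n)))
    (y : (D.obj g).obj l) : Prop :=
  (∃ b, u = Wr.toPt (C := Th n) ((tower (n + 1)).obj g.unop) ≫ vtx (seg c) b ∧
    y = cd D (dd d d' b) g l) ∨
  ∃ (g0 : Gn n) (m : g.unop ⟶ (segG n).obj g0) (v : (tower n).obj g0 ⟶ c),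
    u = (tower (n + 1)).map m ≫ (segMap v : (seg ((tower n).obj g0) : Wr (Th n)) ⟶ seg c) ∧
    y = (D.map m.op).app l (valF (ψ.app (op g0) l s v))

variable {c : Th n} {k : SimplexCategory} (ψ : MpS (filt (rep c)) (FHm D d d') k)

theorem R_left {g g' : (Gn (n + 1))ᵒᵖ} {l : SimplexCategoryᵒᵖ} {s : l.unop ⟶ k}
    {u : (tower (n + 1)).obj g.unop ⟶ (seg c : Wr (Th n))} {y : (D.obj g).obj l}
    (h : RR' D d d' ψ g l s u y) (f : g ⟶ g') :
    RR' D d d' ψ g' l s ((tower (n + 1)).map f.unop ≫ u) ((D.map f).app l y) := by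
  rcases h with ⟨b, rfl, rfl⟩ | ⟨g0, m, v, rfl, rfl⟩
  · refine Or.inl ⟨b, ?_, cd_map D _ f l⟩
    refine (Category.assoc _ _ _).symm.trans ?_
    exact congrArg (fun t => t ≫ vtx (seg c) b) (Wr.toPt_unique _ _)
  · refine Or.inr ⟨g0, f.unop ≫ m, v, ?_, ?_⟩
    · refine (Category.assoc _ _ _).symm.trans ?_
      exact congrArg (fun t => t ≫ segMap v) ((tower (n + 1)).map_comp f.unop m).symm
    · exact (sp_comp D m.op f _).symm

theorem R_right {g : (Gn (n + 1))ᵒᵖ} {l l' : SimplexCategoryᵒᵖ} {s : l.unop ⟶ k}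
    {u : (tower (n + 1)).obj g.unop ⟶ (seg c : Wr (Th n))} {y : (D.obj g).obj l}
    (h : RR' D d d' ψ g l s u y) (α : l ⟶ l') :
    RR' D d d' ψ g l' (α.unop ≫ s) u ((D.obj g).map α y) := by
  rcases h with ⟨b, rfl, rfl⟩ | ⟨g0, m, v, rfl, rfl⟩
  · exact Or.inl ⟨b, rfl, cd_mapk D _ g α⟩
  · refine Or.inr ⟨g0, m, v, rfl, ?_⟩
    rw [← sp_nat]
    refine congrArg ((D.map m.op).app l') ?_
    exact congrArg valF (ψ.nat_right (op g0) α s v).symm

/-- The case of a constant morphism. -/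
theorem val_const {θ : Wr (Th n)} {j : Fin (n + 1)} {g0 : Gn n} {l : SimplexCategoryᵒᵖ}
    (m : ((θ, op j.succ) : Gn (n + 1)) ⟶ (segG n).obj g0) (b : Fin 2)
    (hb : ∀ t, Wr.Hom.f (X := θ) (Y := seg g0.1) m.1 t = b)
    (z : ((FHm D d d').obj (op g0)).obj l) :
    (D.map m.op).app l (valF z) = cd D (dd d d' b) (op ((θ, op j.succ) : Gn (n + 1))) l := by
  have e : m = ((Wr.toPt θ, m.2) : ((θ, op j.succ) : Gn (n + 1)) ⟶
      (ptT (n + 1), op g0.2.unop.succ)) ≫ vG g0 b := by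
    refine Prod.ext ?_ (Subsingleton.elim _ _)
    exact const_factor (C := Th n) m.1 b hb
  have e2 : (D.map m.op).app l (valF z) =
      (D.map (Quiver.Hom.op ((Wr.toPt θ, m.2) : ((θ, op j.succ) : Gn (n + 1)) ⟶
      (ptT (n + 1), op g0.2.unop.succ)))).app l ((D.map (vG g0 b).op).app l (valF z)) := by
    conv_lhs => rw [e]
    exact sp_comp D _ _ _
  rw [e2]
  refine (congrArg _ (valF_end z b)).trans ?_
  exact cd_map D _ _ l

/-- The collapse onto the gap `a`, as a map of `Gn (n + 1)`. -/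
def clG (θ : Wr (Th n)) (j : Fin (n + 1)) (F : Fin (θ.len + 1) →o Fin 2) (a : Fin θ.len)
    (h : Jump F a (0 : Fin 1)) :
    ((θ, op j.succ) : Gn (n + 1)) ⟶ (segG n).obj ((θ.obj a, op j) : Gn n) :=
  ((cl θ F a h : θ ⟶ seg (θ.obj a)), 𝟙 _)

/-- The case of a morphism which is not constant. -/
theorem val_jump {θ : Wr (Th n)} {j : Fin (n + 1)} {g0 : Gn n} {l : SimplexCategoryᵒᵖ}
    {s : l.unop ⟶ k} (m : ((θ, op j.succ) : Gn (n + 1)) ⟶ (segG n).obj g0)
    (v : (tower n).obj g0 ⟶ c) (a : Fin θ.len)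
    (h : Jump (Wr.Hom.f (X := θ) (Y := seg g0.1) m.1) a (0 : Fin 1))
    (u : (tower (n + 1)).obj ((θ, op j.succ) : Gn (n + 1)) ⟶ (seg c : Wr (Th n)))
    (hu : u = (tower (n + 1)).map m ≫ (segMap v : (seg ((tower n).obj g0) : Wr (Th n)) ⟶ seg c))
    (h' : Jump (Wr.Hom.f (X := (Wr.map (tr n j)).obj θ) (Y := seg c) u) a (0 : Fin 1)) :
    (D.map m.op).app l (valF (ψ.app (op g0) l s v)) =
      (D.map (clG θ j (Wr.Hom.f (X := (Wr.map (tr n j)).obj θ) (Y := seg c) u) a h').op).app l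
        (valF (ψ.app (op ((θ.obj a, op j) : Gn n)) l s
          (Wr.Hom.g (X := (Wr.map (tr n j)).obj θ) (Y := seg c) u a (0 : Fin 1) h'))) := by
  subst hu
  have hij : g0.2.unop ≤ j := Fin.succ_le_succ_iff.mp (leOfHom m.2.unop)
  have e : m = clG θ j (Wr.Hom.f (X := θ) (Y := seg g0.1) m.1) a h ≫
      (segG n).map ((Wr.Hom.g (X := θ) (Y := seg g0.1) m.1 a (0 : Fin 1) h,
        (homOfLE hij).op) : ((θ.obj a, op j) : Gn n) ⟶ g0) := by
    refine Prod.ext ?_ (Subsingleton.elim _ _)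
    exact cl_factor (C := Th n) m.1 a h
  have e2 : (D.map m.op).app l (valF (ψ.app (op g0) l s v)) =
      (D.map (clG θ j (Wr.Hom.f (X := θ) (Y := seg g0.1) m.1) a h).op).app l
        ((D.map ((segG n).map ((Wr.Hom.g (X := θ) (Y := seg g0.1) m.1 a (0 : Fin 1) h,
        (homOfLE hij).op) : ((θ.obj a, op j) : Gn n) ⟶ g0)).op).app l
          (valF (ψ.app (op g0) l s v))) := by
    conv_lhs => rw [e]
    exact sp_comp D _ _ _
  refine e2.trans ?_
  refine congrArg ((D.map (clG θ j (Wr.Hom.f (X := θ) (Y := seg g0.1) m.1) a h).op).app l) ?_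
  have e3 := ψ.nat_left (Quiver.Hom.op ((Wr.Hom.g (X := θ) (Y := seg g0.1) m.1 a (0 : Fin 1) h,
        (homOfLE hij).op) : ((θ.obj a, op j) : Gn n) ⟶ g0)) l s v
  refine (congrArg valF e3).symm.trans ?_
  refine congrArg (fun t => valF (ψ.app (op ((θ.obj a, op j) : Gn n)) l s t)) ?_
  have e4 := tow_g (θ := θ) (θ' := seg g0.1) (i := g0.2.unop) m hij a (0 : Fin 1) h
  have e5 := Wr.comp_g (X := (Wr.map (tr n j)).obj θ) (Y := seg ((tower n).obj g0))
    (Z := seg c) ((tower (n + 1)).map m) (segMap v) (i := a) (j := (0 : Fin 1))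
    (k := (0 : Fin 1)) h (jump_id.mpr rfl)
  have e6 := Wr.ofComp_g (X := fun _ => (tower n).obj g0) (Y := fun _ => c)
    (fun _ => v) (0 : Fin 1) (jump_id.mpr rfl)
  refine Eq.trans ?_ e5.symm
  exact (congrArg₂ (· ≫ ·) e4 e6).symm

theorem R_const {θ : Wr (Th n)} {j : Fin (n + 1)} {l : SimplexCategoryᵒᵖ} {s : l.unop ⟶ k}
    {u : (tower (n + 1)).obj ((θ, op j.succ) : Gn (n + 1)) ⟶ (seg c : Wr (Th n))}
    {y : (D.obj (op ((θ, op j.succ) : Gn (n + 1)))).obj l} (b : Fin 2)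
    (hb : ∀ t, Wr.Hom.f (X := (Wr.map (tr n j)).obj θ) (Y := seg c) u t = b)
    (h : RR' D d d' ψ (op ((θ, op j.succ) : Gn (n + 1))) l s u y) :
    y = cd D (dd d d' b) (op ((θ, op j.succ) : Gn (n + 1))) l := by
  rcases h with ⟨b', h1, rfl⟩ | ⟨g0, m, v, h1, rfl⟩
  · have h2 := hb 0
    rw [h1] at h2
    have h3 : b' = b := h2
    rw [h3]
  · refine val_const m b ?_ _
    intro t
    have h2 := hb t
    rw [h1] at h2
    exact h2

theorem R_jump {θ : Wr (Th n)} {j : Fin (n + 1)} {l : SimplexCategoryᵒᵖ} {s : l.unop ⟶ k}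
    {u : (tower (n + 1)).obj ((θ, op j.succ) : Gn (n + 1)) ⟶ (seg c : Wr (Th n))}
    {y : (D.obj (op ((θ, op j.succ) : Gn (n + 1)))).obj l} (a : Fin θ.len)
    (ha : Jump (Wr.Hom.f (X := (Wr.map (tr n j)).obj θ) (Y := seg c) u) a (0 : Fin 1))
    (h : RR' D d d' ψ (op ((θ, op j.succ) : Gn (n + 1))) l s u y) :
    y = (D.map (clG θ j (Wr.Hom.f (X := (Wr.map (tr n j)).obj θ) (Y := seg c) u) a ha).op).app l
        (valF (ψ.app (op ((θ.obj a, op j) : Gn n)) l s
          (Wr.Hom.g (X := (Wr.map (tr n j)).obj θ) (Y := seg c) u a (0 : Fin 1) ha))) := by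
  rcases h with ⟨b', h1, rfl⟩ | ⟨g0, m, v, h1, rfl⟩
  · exfalso
    have h2 := ha
    rw [h1] at h2
    have h3 : ((0 : Fin 1).succ : Fin 2) ≤ b' := h2.2
    have h4 : b' ≤ ((0 : Fin 1).castSucc : Fin 2) := h2.1
    exact absurd (h3.trans h4) (by decide)
  · refine val_jump ψ m v a ?_ u h1 ha
    have h2 := ha
    rw [h1] at h2
    exact h2

theorem R_fun {g : (Gn (n + 1))ᵒᵖ} {l : SimplexCategoryᵒᵖ} {s : l.unop ⟶ k}
    {u : (tower (n + 1)).obj g.unop ⟶ (seg c : Wr (Th n))} {y y' : (D.obj g).obj l}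
    (h : RR' D d d' ψ g l s u y) (h' : RR' D d d' ψ g l s u y') : y = y' := by
  obtain ⟨⟨θ, ⟨j⟩⟩⟩ := g
  rcases Fin.eq_zero_or_eq_succ j with rfl | ⟨j, rfl⟩
  · have aux : ∀ (g0 : Gn n) (m : ((θ, op 0) : Gn (n + 1)) ⟶ (segG n).obj g0), False := by
      intro g0 m
      have h1 : g0.2.unop.succ ≤ (0 : Fin (n + 2)) := leOfHom m.2.unop
      exact absurd h1 (not_le.mpr (Fin.succ_pos _))
    rcases h with ⟨b, h1, rfl⟩ | ⟨g0, m, v, h1, rfl⟩
    · rcases h' with ⟨b', h1', rfl⟩ | ⟨g0, m, v, h1', rfl⟩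
      · have h2 := h1.symm.trans h1'
        have h3 := congrArg (fun t => Wr.Hom.f (X := (Wr.pt : Wr (Th n))) (Y := seg c) t 0) h2
        have h4 : b = b' := h3
        rw [h4]
      · exact (aux g0 m).elim
    · exact (aux g0 m).elim
  · rcases trich (Wr.Hom.f (X := (Wr.map (tr n j)).obj θ) (Y := seg c) u) with ⟨b, hb⟩ | ⟨a, ha⟩
    · exact (R_const ψ b hb h).trans (R_const ψ b hb h').symm
    · exact (R_jump (θ := θ) ψ a ha h).trans (R_jump (θ := θ) ψ a ha h').symm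

theorem clG_factor {θ : Wr (Th n)} {j : Fin (n + 1)}
    (u : (tower (n + 1)).obj ((θ, op j.succ) : Gn (n + 1)) ⟶ (seg c : Wr (Th n)))
    (a : Fin θ.len)
    (ha : Jump (Wr.Hom.f (X := (Wr.map (tr n j)).obj θ) (Y := seg c) u) a (0 : Fin 1)) :
    u = (tower (n + 1)).map (clG θ j (Wr.Hom.f (X := (Wr.map (tr n j)).obj θ) (Y := seg c) u)
      a ha) ≫ (segMap (Wr.Hom.g (X := (Wr.map (tr n j)).obj θ) (Y := seg c) u a (0 : Fin 1) ha) :
        (seg ((tower n).obj ((θ.obj a, op j) : Gn n)) : Wr (Th n)) ⟶ seg c) := by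
  refine Wr.hom_ext' (X := (Wr.map (tr n j)).obj θ) (Y := seg c) rfl
    fun i (j' : Fin 1) h1 h2 => ?_
  obtain rfl : j' = 0 := Subsingleton.elim _ _
  obtain rfl : i = a := h1.unique ha
  have e4 := tow_g (θ := θ) (θ' := seg (θ.obj i)) (i := j)
    (clG θ j (Wr.Hom.f (X := (Wr.map (tr n j)).obj θ) (Y := seg c) u) i ha) (le_refl _) i
    (0 : Fin 1) ha
  have e5 := Wr.comp_g (X := (Wr.map (tr n j)).obj θ)
    (Y := seg ((tower n).obj ((θ.obj i, op j) : Gn n)))
    (Z := seg c) ((tower (n + 1)).map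
      (clG θ j (Wr.Hom.f (X := (Wr.map (tr n j)).obj θ) (Y := seg c) u) i ha))
    (segMap (Wr.Hom.g (X := (Wr.map (tr n j)).obj θ) (Y := seg c) u i (0 : Fin 1) ha))
    (i := i) (j := (0 : Fin 1)) (k := (0 : Fin 1)) ha (jump_id.mpr rfl)
  have e6 := Wr.ofComp_g (X := fun _ => (tower n).obj ((θ.obj i, op j) : Gn n)) (Y := fun _ => c)
    (fun _ => Wr.Hom.g (X := (Wr.map (tr n j)).obj θ) (Y := seg c) u i (0 : Fin 1) ha)
    (0 : Fin 1) (jump_id.mpr rfl)
  refine Eq.trans ?_ e5.symm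
  refine Eq.trans ?_ (congrArg₂ (· ≫ ·) e4 e6).symm
  have e7 : (tower n).map ((Wr.Hom.g (X := θ) (Y := seg (θ.obj i))
      (clG θ j (Wr.Hom.f (X := (Wr.map (tr n j)).obj θ) (Y := seg c) u) i ha).1 i (0 : Fin 1) ha,
      (homOfLE (le_refl j)).op) : ((θ.obj i, op j) : Gn n) ⟶ (θ.obj i, op j)) = 𝟙 _ := by
    refine Eq.trans ?_ ((tower n).map_id _)
    refine congrArg (fun t => (tower n).map t) ?_
    exact Prod.ext rfl (Subsingleton.elim _ _)
  refine Eq.trans ?_ (congrArg (fun t => t ≫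
    Wr.Hom.g (X := (Wr.map (tr n j)).obj θ) (Y := seg c) u i (0 : Fin 1) ha) e7).symm
  exact (Category.id_comp _).symm

theorem R_tot (g : (Gn (n + 1))ᵒᵖ) (l : SimplexCategoryᵒᵖ) (s : l.unop ⟶ k)
    (u : (tower (n + 1)).obj g.unop ⟶ (seg c : Wr (Th n))) : ∃ y, RR' D d d' ψ g l s u y := by
  obtain ⟨⟨θ, ⟨j⟩⟩⟩ := g
  rcases Fin.eq_zero_or_eq_succ j with rfl | ⟨j, rfl⟩
  · refine ⟨_, Or.inl ⟨Wr.Hom.f (X := (Wr.pt : Wr (Th n))) (Y := seg c) u 0, ?_, rfl⟩⟩
    refine const_factor (C := Th n) (θ := Wr.pt) u _ fun (t : Fin 1) => ?_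
    obtain rfl : t = 0 := Subsingleton.elim _ _
    rfl
  · rcases trich (Wr.Hom.f (X := (Wr.map (tr n j)).obj θ) (Y := seg c) u) with ⟨b, hb⟩ | ⟨a, ha⟩
    · exact ⟨_, Or.inl ⟨b, const_factor (C := Th n) (θ := (Wr.map (tr n j)).obj θ) u b hb, rfl⟩⟩
    · exact ⟨_, Or.inr ⟨(θ.obj a, op j), _, _, clG_factor u a ha, rfl⟩⟩

/-- The simplex of `ND D` attached to a simplex of `ND (FHm D d d')`. -/
def mkZ : MpS (filt (rep (seg c : Wr (Th n)) : SP (Th (n + 1)))) D k where
  app g l s u := (R_tot ψ g l s u).choose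
  nat_left {g g'} f l s u := R_fun ψ (R_tot ψ g' l s _).choose_spec
    (R_left ψ (R_tot ψ g l s u).choose_spec f)
  nat_right g {l l'} α s u := R_fun ψ (R_tot ψ g l' _ _).choose_spec
    (R_right ψ (R_tot ψ g l s u).choose_spec α)

theorem mkZ_spec {g : (Gn (n + 1))ᵒᵖ} {l : SimplexCategoryᵒᵖ} {s : l.unop ⟶ k}
    {u : (tower (n + 1)).obj g.unop ⟶ (seg c : Wr (Th n))} {y : (D.obj g).obj l}
    (h : RR' D d d' ψ g l s u y) : (mkZ ψ).app g l s u = y :=
  R_fun ψ (R_tot ψ g l s u).choose_spec h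

theorem Phi_end (z : MpS (filt (rep (seg c : Wr (Th n)) : SP (Th (n + 1)))) D k)
    (hz : ∀ (b : Fin 2) (g : (Gn (n + 1))ᵒᵖ) (l : SimplexCategoryᵒᵖ) (s : l.unop ⟶ k)
      (u : (tower (n + 1)).obj g.unop ⟶ (Wr.pt : Wr (Th n))),
      z.app g l s (u ≫ vtx (seg c) b : _ ⟶ (seg c : Wr (Th n))) = cd D (dd d d' b) g l)
    (b : Fin 2) (g : (Gn n)ᵒᵖ) (l : SimplexCategoryᵒᵖ) (s : l.unop ⟶ k)
    (u : (tower n).obj g.unop ⟶ c) :
    (D.map (vG g.unop b).op).app l (z.app (op ((segG n).obj g.unop)) l s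
      (segMap u : (seg ((tower n).obj g.unop) : Wr (Th n)) ⟶ seg c)) =
      cd D (dd d d' b) (op (ptT (n + 1), op g.unop.2.unop.succ)) l := by
  refine (z.nat_left (vG g.unop b).op l s _).symm.trans ?_
  refine Eq.trans ?_ (hz b (op (ptT (n + 1), op g.unop.2.unop.succ)) l s
    (Wr.toPt ((tower (n + 1)).obj (ptT (n + 1), op g.unop.2.unop.succ) : Wr (Th n))))
  refine congrArg (z.app (op (ptT (n + 1), op g.unop.2.unop.succ)) l s) ?_
  refine (congrArg (fun t => t ≫ (segMap u : (seg ((tower n).obj g.unop) : Wr (Th n)) ⟶ seg c))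
    (tow_vG g.unop b)).trans ?_
  refine (Category.assoc _ _ _).trans ?_
  exact congrArg (fun t => Wr.toPt ((tower (n + 1)).obj
    (ptT (n + 1), op g.unop.2.unop.succ) : Wr (Th n)) ≫ t) (vtx_comp b (segMap u))

/-- The simplex of `ND (FHm D d d')` attached to a simplex of `ND D` with fixed ends. -/
def Phi (z : MpS (filt (rep (seg c : Wr (Th n)) : SP (Th (n + 1)))) D k)
    (hz : ∀ (b : Fin 2) (g : (Gn (n + 1))ᵒᵖ) (l : SimplexCategoryᵒᵖ) (s : l.unop ⟶ k)
      (u : (tower (n + 1)).obj g.unop ⟶ (Wr.pt : Wr (Th n))),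
      z.app g l s (u ≫ vtx (seg c) b : _ ⟶ (seg c : Wr (Th n))) = cd D (dd d d' b) g l) :
    MpS (filt (rep c)) (FHm D d d') k where
  app g l s u := mkF D d d' g l (z.app (op ((segG n).obj g.unop)) l s
      (segMap u : (seg ((tower n).obj g.unop) : Wr (Th n)) ⟶ seg c))
    (Phi_end z hz 0 g l s u) (Phi_end z hz 1 g l s u)
  nat_left {g g'} f l s u := by
    refine valF_inj ?_
    refine Eq.trans ?_ (z.nat_left ((segG n).map f.unop).op l s _)
    refine congrArg (z.app (op ((segG n).obj g'.unop)) l s) ?_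
    refine (segMap_comp _ _).trans ?_
    exact congrArg (fun t => t ≫ segMap u) (tow_seg f.unop).symm
  nat_right g {l l'} α s u := valF_inj (z.nat_right _ α s _)

theorem R_of (z : MpS (filt (rep (seg c : Wr (Th n)) : SP (Th (n + 1)))) D k)
    (hz : ∀ (b : Fin 2) (g : (Gn (n + 1))ᵒᵖ) (l : SimplexCategoryᵒᵖ) (s : l.unop ⟶ k)
      (u : (tower (n + 1)).obj g.unop ⟶ (Wr.pt : Wr (Th n))),
      z.app g l s (u ≫ vtx (seg c) b : _ ⟶ (seg c : Wr (Th n))) = cd D (dd d d' b) g l)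
    (g : (Gn (n + 1))ᵒᵖ) (l : SimplexCategoryᵒᵖ) (s : l.unop ⟶ k)
    (u : (tower (n + 1)).obj g.unop ⟶ (seg c : Wr (Th n))) :
    RR' D d d' (Phi z hz) g l s u (z.app g l s u) := by
  obtain ⟨y, hy⟩ := R_tot (Phi z hz) g l s u
  rcases hy with ⟨b, rfl, rfl⟩ | ⟨g0, m, v, rfl, rfl⟩
  · exact Or.inl ⟨b, rfl, hz b g l s _⟩
  · exact Or.inr ⟨g0, m, v, rfl, z.nat_left m.op l s _⟩

theorem mkZ_Phi (z : MpS (filt (rep (seg c : Wr (Th n)) : SP (Th (n + 1)))) D k)
    (hz : ∀ (b : Fin 2) (g : (Gn (n + 1))ᵒᵖ) (l : SimplexCategoryᵒᵖ) (s : l.unop ⟶ k)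
      (u : (tower (n + 1)).obj g.unop ⟶ (Wr.pt : Wr (Th n))),
      z.app g l s (u ≫ vtx (seg c) b : _ ⟶ (seg c : Wr (Th n))) = cd D (dd d d' b) g l) :
    mkZ (Phi z hz) = z := by
  refine MpS.ext ?_
  funext g l s u
  exact mkZ_spec _ (R_of z hz g l s u)

theorem mkZ_end (b : Fin 2) (g : (Gn (n + 1))ᵒᵖ) (l : SimplexCategoryᵒᵖ) (s : l.unop ⟶ k)
    (u : (tower (n + 1)).obj g.unop ⟶ (Wr.pt : Wr (Th n))) :
    (mkZ ψ).app g l s (u ≫ vtx (seg c) b : _ ⟶ (seg c : Wr (Th n))) = cd D (dd d d' b) g l := by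
  refine mkZ_spec ψ (Or.inl ⟨b, ?_, rfl⟩)
  exact congrArg (fun t => t ≫ vtx (seg c) b) (Wr.toPt_unique _ _)

theorem Phi_mkZ : Phi (mkZ ψ) (mkZ_end ψ) = ψ := by
  refine MpS.ext ?_
  funext g l s u
  refine valF_inj ?_
  refine mkZ_spec ψ (Or.inr ⟨g.unop, 𝟙 _, u, ?_, ?_⟩)
  · refine Eq.trans ?_ (congrArg (fun t => t ≫ (segMap u :
      (seg ((tower n).obj g.unop) : Wr (Th n)) ⟶ seg c))
      ((tower (n + 1)).map_id ((segG n).obj g.unop))).symm
    exact (Category.id_comp _).symm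
  · exact (sp_id D _).symm

variable {v w : Vt (C := Th n) (ND D)}

theorem hz_of (hv : ∀ (g : (Gn (n + 1))ᵒᵖ) (l : SimplexCategoryᵒᵖ)
      (s : l.unop ⟶ SimplexCategory.mk 0) (u : (tower (n + 1)).obj g.unop ⟶ ptT (n + 1)),
      (v : MpS (filt (rep (ptT (n + 1)))) D (SimplexCategory.mk 0)).app g l s u = cd D d g l)
    (hw : ∀ (g : (Gn (n + 1))ᵒᵖ) (l : SimplexCategoryᵒᵖ)
      (s : l.unop ⟶ SimplexCategory.mk 0) (u : (tower (n + 1)).obj g.unop ⟶ ptT (n + 1)),
      (w : MpS (filt (rep (ptT (n + 1)))) D (SimplexCategory.mk 0)).app g l s u = cd D d' g l)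
    {c : (Th n)ᵒᵖ} {k : SimplexCategoryᵒᵖ} (z : ((Hm (C := Th n) (ND D) v w).obj c).obj k)
    (b : Fin 2) (g : (Gn (n + 1))ᵒᵖ) (l : SimplexCategoryᵒᵖ) (s : l.unop ⟶ k.unop)
    (u : (tower (n + 1)).obj g.unop ⟶ (Wr.pt : Wr (Th n))) :
    (Hm.val (C := Th n) z : MpS (filt (rep (seg c.unop : Wr (Th n)) : SP (Th (n + 1)))) D
      k.unop).app g l s (u ≫ vtx (seg c.unop) b : _ ⟶ (seg c.unop : Wr (Th n))) =
      cd D (dd d d' b) g l := by
  rcases Fin.exists_fin_two.mp ⟨b, rfl⟩ with rfl | rfl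
  · refine Eq.trans ?_ (hv g l (s ≫ SimplexCategory.const k.unop (SimplexCategory.mk 0) 0) u)
    exact congrArg (fun (t : MpS (filt (rep (ptT (n + 1)))) D k.unop) => t.app g l s u)
      (Hm_zero z)
  · refine Eq.trans ?_ (hw g l (s ≫ SimplexCategory.const k.unop (SimplexCategory.mk 0) 0) u)
    exact congrArg (fun (t : MpS (filt (rep (ptT (n + 1)))) D k.unop) => t.app g l s u)
      (Hm_one z)

/-- The comparison map. -/
def psi (hv : ∀ (g : (Gn (n + 1))ᵒᵖ) (l : SimplexCategoryᵒᵖ)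
      (s : l.unop ⟶ SimplexCategory.mk 0) (u : (tower (n + 1)).obj g.unop ⟶ ptT (n + 1)),
      (v : MpS (filt (rep (ptT (n + 1)))) D (SimplexCategory.mk 0)).app g l s u = cd D d g l)
    (hw : ∀ (g : (Gn (n + 1))ᵒᵖ) (l : SimplexCategoryᵒᵖ)
      (s : l.unop ⟶ SimplexCategory.mk 0) (u : (tower (n + 1)).obj g.unop ⟶ ptT (n + 1)),
      (w : MpS (filt (rep (ptT (n + 1)))) D (SimplexCategory.mk 0)).app g l s u = cd D d' g l) :
    Hm (C := Th n) (ND D) v w ⟶ ND (FHm D d d') where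
  app c :=
    { app := fun k => ↾ fun (z : ((Hm (C := Th n) (ND D) v w).obj c).obj k) =>
        (Phi (Hm.val (C := Th n) z : MpS (filt (rep (seg c.unop : Wr (Th n)) :
          SP (Th (n + 1)))) D k.unop) (hz_of hv hw z) :
          MpS (filt (rep c.unop)) (FHm D d d') k.unop)
      naturality := fun _ _ _ => rfl }
  naturality c c' h := by
    refine NatTrans.ext (funext fun k => ?_)
    refine ConcreteCategory.hom_ext _ _
      fun (z : ((Hm (C := Th n) (ND D) v w).obj c).obj k) => ?_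
    refine MpS.ext ?_
    funext g l s u
    refine valF_inj ?_
    exact congrArg ((Hm.val (C := Th n) z : MpS (filt (rep (seg c.unop : Wr (Th n)) :
          SP (Th (n + 1)))) D k.unop).app (op ((segG n).obj g.unop)) l s)
      (segMap_comp _ _).symm

theorem psi_isIso (hv : ∀ (g : (Gn (n + 1))ᵒᵖ) (l : SimplexCategoryᵒᵖ)
      (s : l.unop ⟶ SimplexCategory.mk 0) (u : (tower (n + 1)).obj g.unop ⟶ ptT (n + 1)),
      (v : MpS (filt (rep (ptT (n + 1)))) D (SimplexCategory.mk 0)).app g l s u = cd D d g l)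
    (hw : ∀ (g : (Gn (n + 1))ᵒᵖ) (l : SimplexCategoryᵒᵖ)
      (s : l.unop ⟶ SimplexCategory.mk 0) (u : (tower (n + 1)).obj g.unop ⟶ ptT (n + 1)),
      (w : MpS (filt (rep (ptT (n + 1)))) D (SimplexCategory.mk 0)).app g l s u = cd D d' g l) :
    IsIso (psi hv hw) := by
  rw [NatTrans.isIso_iff_isIso_app]
  intro c
  rw [NatTrans.isIso_iff_isIso_app]
  intro k
  rw [isIso_iff_bijective]
  constructor
  · intro (z : ((Hm (C := Th n) (ND D) v w).obj c).obj k)
      (z' : ((Hm (C := Th n) (ND D) v w).obj c).obj k) h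
    have h' : Phi (Hm.val (C := Th n) z : MpS (filt (rep (seg c.unop : Wr (Th n)) :
          SP (Th (n + 1)))) D k.unop) (hz_of hv hw z) =
        Phi (Hm.val (C := Th n) z' : MpS (filt (rep (seg c.unop : Wr (Th n)) :
          SP (Th (n + 1)))) D k.unop) (hz_of hv hw z') := h
    refine Subtype.ext ?_
    refine (mkZ_Phi _ (hz_of hv hw z)).symm.trans (Eq.trans ?_ (mkZ_Phi _ (hz_of hv hw z')))
    rw [h']
  · intro (ψ : MpS (filt (rep c.unop)) (FHm D d d') k.unop)
    refine ⟨(⟨mkZ ψ, ?_⟩ : ((Hm (C := Th n) (ND D) v w).obj c).obj k), ?_⟩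
    · refine Prod.ext ?_ ?_
      · refine MpS.ext ?_
        funext g l s u
        refine (mkZ_end ψ 0 g l s u).trans ?_
        exact (hv g l (s ≫ SimplexCategory.const k.unop (SimplexCategory.mk 0) 0) u).symm
      · refine MpS.ext ?_
        funext g l s u
        refine (mkZ_end ψ 1 g l s u).trans ?_
        exact (hw g l (s ≫ SimplexCategory.const k.unop (SimplexCategory.mk 0) 0) u).symm
    · exact Phi_mkZ ψ

end Main

section Final

variable {n : ℕ}

theorem flat_good {X : SP (Th (n + 1))} {D : SP (Gn (n + 1))} (f : filt X ⟶ D)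
    (x : Vt (C := Th n) X) (g : (Gn (n + 1))ᵒᵖ) (l : SimplexCategoryᵒᵖ)
    (s : l.unop ⟶ SimplexCategory.mk 0) (u : (tower (n + 1)).obj g.unop ⟶ ptT (n + 1)) :
    (vtMap (C := Th n) (flat f) x : MpS (filt (rep (ptT (n + 1)))) D
      (SimplexCategory.mk 0)).app g l s u = cd D (vf f x) g l := by
  refine Eq.trans ?_ (f_cst f x g l u)
  refine congrArg (fun t => (f.app g).app l ((X.map u.op).app l t)) ?_
  refine congrArg (fun t => (X.obj (op (ptT (n + 1)))).map (Quiver.Hom.op t) x) ?_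
  ext i : 3
  exact Subsingleton.elim (α := Fin 1) _ _

theorem exists_NDHm {X : SP (Th (n + 1))} {D : SP (Gn (n + 1))} (f : filt X ⟶ D)
    (x y : Vt (C := Th n) X) :
    ∃ f' : filt (Hm (C := Th n) X x y) ⟶ FHm D (vf f x) (vf f y),
      (∀ (g : (Gn n)ᵒᵖ) (k : SimplexCategoryᵒᵖ)
        (z : ((Hm (C := Th n) X x y).obj (op ((tower n).obj g.unop))).obj k),
        ((f'.app g).app k z).1 =
          (f.app (op ((segG n).obj g.unop))).app k (Hm.val (C := Th n) z)) ∧
      ∃ e : ND (FHm D (vf f x) (vf f y)) ≅ Hm (C := Th n) (ND D) (vtMap (C := Th n) (flat f) x)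
        (vtMap (C := Th n) (flat f) y), flat f' ≫ e.hom = HmMap (C := Th n) (flat f) x y := by
  refine ⟨fH f x y, fun _ _ _ => rfl, ?_⟩
  have hI := psi_isIso (flat_good f x) (flat_good f y)
  refine ⟨(asIso (psi (flat_good f x) (flat_good f y))).symm, ?_⟩
  rw [Iso.symm_hom, asIso_inv, IsIso.comp_inv_eq]
  refine NatTrans.ext (funext fun c => NatTrans.ext (funext fun k => ?_))
  refine ConcreteCategory.hom_ext _ _
    fun (z : ((Hm (C := Th n) X x y).obj c).obj k) => ?_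
  refine MpS.ext ?_
  funext g l s u
  exact valF_inj rfl

/-- The map `t_{i+1}[0] ⟶ [0]`. -/
def qpt (i : Fin (n + 1)) : (tower (n + 1)).obj (ptT (n + 1), op i.succ) ⟶ ptT (n + 1) :=
  Wr.toPt (C := Th n) _

/-- The map `[0] ⟶ t_{i+1}[0]`. -/
def upt (i : Fin (n + 1)) : ptT (n + 1) ⟶ (tower (n + 1)).obj (ptT (n + 1), op i.succ) :=
  (trUnit (n + 1) i.succ).app (ptT (n + 1))

theorem upt_qpt (i : Fin (n + 1)) : upt i ≫ qpt i = 𝟙 _ := ptT_uniq _ _

theorem qpt_upt (i : Fin (n + 1)) : qpt i ≫ upt i = 𝟙 _ := by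
  refine Wr.hom_ext' (X := (Wr.map (tr n i)).obj (Wr.pt : Wr (Th n)))
    (Y := (Wr.map (tr n i)).obj (Wr.pt : Wr (Th n))) ?_ fun (j : Fin 0) _ _ _ => j.elim0
  ext t
  exact congrArg Fin.val (Subsingleton.elim (α := Fin 1) _ _)

theorem map_upt_qpt (X : SP (Th (n + 1))) (i : Fin (n + 1)) {k : SimplexCategoryᵒᵖ}
    (a : (X.obj (op ((tower (n + 1)).obj (ptT (n + 1), op i.succ)))).obj k) :
    (X.map (qpt i).op).app k ((X.map (upt i).op).app k a) = a := by
  rw [← sp_comp, ← op_comp, qpt_upt]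
  exact sp_id X a

theorem map_qpt_upt (X : SP (Th (n + 1))) (i : Fin (n + 1)) {k : SimplexCategoryᵒᵖ}
    (a : (X.obj (op (ptT (n + 1)))).obj k) :
    (X.map (upt i).op).app k ((X.map (qpt i).op).app k a) = a := by
  rw [← sp_comp, ← op_comp, upt_qpt]
  exact sp_id X a

/-- Vertices of the levels of `filt X` and vertices of `X`. -/
theorem vt_filt (X : SP (Th (n + 1))) (i : Fin (n + 1)) :
    Function.Bijective fun a : Vt (C := Th n) (level (filt X) i.succ) =>
      ((X.map ((trUnit (n + 1) i.succ).app (ptT (n + 1))).op).app _ a : Vt (C := Th n) X) := by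
  refine Function.bijective_iff_has_inverse.mpr
    ⟨fun x => (X.map (qpt i).op).app (op (SimplexCategory.mk 0)) x, ?_, ?_⟩
  · intro a
    exact map_upt_qpt X i a
  · intro x
    exact map_qpt_upt X i x

theorem levelHom_vt {X : SP (Th (n + 1))} {D : SP (Gn (n + 1))} (f : filt X ⟶ D)
    (x : Vt (C := Th n) X) (i : Fin (n + 1)) (a : Vt (C := Th n) (level (filt X) i.succ))
    (ha : (X.map ((trUnit (n + 1) i.succ).app (ptT (n + 1))).op).app _ a = x) :
    vtMap (C := Th n) (levelHom f i.succ) a = vlev D (vf f x) i.succ := by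
  have h1 : a = (X.map (qpt i).op).app (op (SimplexCategory.mk 0)) x := by
    rw [← ha]
    exact (map_upt_qpt X i a).symm
  have h2 := f_cst f x (op (ptT (n + 1), op i.succ)) (op (SimplexCategory.mk 0)) (qpt i)
  have h4 := (congrArg (fun t => (f.app (op (ptT (n + 1), op i.succ))).app
    (op (SimplexCategory.mk 0)) ((X.map (qpt i).op).app (op (SimplexCategory.mk 0)) t))
    (cst_zero (X.obj (op (ptT (n + 1)))) x)).symm.trans h2
  have h3 := (cst_zero _ _).symm.trans (cst_vlev D (vf f x) i.succ (op (SimplexCategory.mk 0)))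
  rw [h1]
  exact h4.trans h3.symm

theorem vtx_upt (i : Fin (n + 1)) (c : Th n) (b : Fin 2) :
    (vtx (seg ((tower n).obj (c, op i))) b : (Wr.pt : Wr (Th n)) ⟶ seg ((tower n).obj (c, op i))) =
      (upt i ≫ (tower (n + 1)).map (vG (c, op i) b) :
        (Wr.pt : Wr (Th n)) ⟶ seg ((tower n).obj (c, op i))) :=
  Wr.hom_ext' rfl fun (j : Fin 0) _ _ _ => j.elim0

theorem end_iff {X : SP (Th (n + 1))} (x : Vt (C := Th n) X) (i : Fin (n + 1))
    (a : Vt (C := Th n) (level (filt X) i.succ))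
    (ha : (X.map ((trUnit (n + 1) i.succ).app (ptT (n + 1))).op).app _ a = x) (c : Th n)
    (b : Fin 2) (k : SimplexCategoryᵒᵖ)
    (z : (X.obj (op (seg ((tower n).obj (c, op i)) : Wr (Th n)))).obj k) :
    ((level (filt X) i.succ).map (Quiver.Hom.op (vtx (seg c) b :
      (Wr.pt : Wr (Th n)) ⟶ seg c))).app k z =
        cst ((level (filt X) i.succ).obj (op (ptT (n + 1)))) a k ↔
      (X.map (Quiver.Hom.op (vtx (seg ((tower n).obj (c, op i))) b :
        (Wr.pt : Wr (Th n)) ⟶ seg ((tower n).obj (c, op i))))).app k z =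
          cst (X.obj (op (ptT (n + 1)))) x k := by
  have h1 : (X.map (Quiver.Hom.op (vtx (seg ((tower n).obj (c, op i))) b :
      (Wr.pt : Wr (Th n)) ⟶ seg ((tower n).obj (c, op i))))).app k z =
      (X.map (upt i).op).app k ((X.map ((tower (n + 1)).map (vG (c, op i) b)).op).app k z) := by
    refine Eq.trans ?_ (sp_comp X _ _ z)
    exact congrArg (fun t => (X.map (Quiver.Hom.op t)).app k z) (vtx_upt i c b)
  have h2 : (X.map (upt i).op).app k (cst (X.obj (op ((tower (n + 1)).obj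
      (ptT (n + 1), op i.succ)))) a k) = cst (X.obj (op (ptT (n + 1)))) x k := by
    refine (app_cst (X.map (upt i).op) a k).trans ?_
    exact congrArg (fun t => cst (X.obj (op (ptT (n + 1)))) t k) ha
  constructor
  · intro h
    refine h1.trans (Eq.trans ?_ h2)
    exact congrArg ((X.map (upt i).op).app k) h
  · intro h
    have h3 := (h1.symm.trans h).trans h2.symm
    have h4 := congrArg ((X.map (qpt i).op).app k) h3
    exact ((map_upt_qpt X i _).symm.trans h4).trans (map_upt_qpt X i _)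

/-- The comparison of mapping presheaves of the levels of `filt X` and levels of `filt` of the
mapping presheaf. -/
def lvS {X : SP (Th (n + 1))} (x y : Vt (C := Th n) X) (i : Fin (n + 1))
    (a b : Vt (C := Th n) (level (filt X) i.succ))
    (ha : (X.map ((trUnit (n + 1) i.succ).app (ptT (n + 1))).op).app _ a = x)
    (hb : (X.map ((trUnit (n + 1) i.succ).app (ptT (n + 1))).op).app _ b = y) :
    Hm (C := Th n) (level (filt X) i.succ) a b ⟶ level (filt (Hm (C := Th n) X x y)) i where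
  app c :=
    { app := fun k => ↾ fun (z : ((Hm (C := Th n) (level (filt X) i.succ) a b).obj c).obj k) =>
        (⟨z.1, Prod.ext ((end_iff x i a ha c.unop 0 k z.1).mp (congrArg Prod.fst z.2))
          ((end_iff y i b hb c.unop 1 k z.1).mp (congrArg Prod.snd z.2))⟩ :
          ((Hm (C := Th n) X x y).obj (op ((tower n).obj (c.unop, op i)))).obj k)
      naturality := fun _ _ _ => rfl }
  naturality c c' h := by
    refine NatTrans.ext (funext fun k => ?_)
    refine ConcreteCategory.hom_ext _ _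
      fun (z : ((Hm (C := Th n) (level (filt X) i.succ) a b).obj c).obj k) => ?_
    refine Subtype.ext ?_
    refine congrArg (fun t => (X.map (Quiver.Hom.op t)).app k z.1) ?_
    exact tow_seg ((h.unop, 𝟙 (op i)) : ((c'.unop, op i) : Gn n) ⟶ (c.unop, op i))

theorem lvS_isIso {X : SP (Th (n + 1))} (x y : Vt (C := Th n) X) (i : Fin (n + 1))
    (a b : Vt (C := Th n) (level (filt X) i.succ))
    (ha : (X.map ((trUnit (n + 1) i.succ).app (ptT (n + 1))).op).app _ a = x)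
    (hb : (X.map ((trUnit (n + 1) i.succ).app (ptT (n + 1))).op).app _ b = y) :
    IsIso (lvS x y i a b ha hb) := by
  rw [NatTrans.isIso_iff_isIso_app]
  intro c
  rw [NatTrans.isIso_iff_isIso_app]
  intro k
  rw [isIso_iff_bijective]
  constructor
  · intro z z' h
    have h' := congrArg (fun t => (t : ((Hm (C := Th n) X x y).obj
      (op ((tower n).obj (c.unop, op i)))).obj k).1) h
    exact Subtype.ext h'
  · intro (z : ((Hm (C := Th n) X x y).obj (op ((tower n).obj (c.unop, op i)))).obj k)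
    exact ⟨(⟨z.1, Prod.ext ((end_iff x i a ha c.unop 0 k z.1).mpr (congrArg Prod.fst z.2))
          ((end_iff y i b hb c.unop 1 k z.1).mpr (congrArg Prod.snd z.2))⟩ :
        ((Hm (C := Th n) (level (filt X) i.succ) a b).obj c).obj k), rfl⟩

/-- Mapping presheaves for equal vertices. -/
theorem hm_eq {C : Type} [SmallCategory C] {P : SP (Wr C)} {p p' q q' : Vt P} (hp : p = p')
    (hq : q = q') : ∃ e : Hm P p q ≅ Hm P p' q', ∀ (c : Cᵒᵖ) (k : SimplexCategoryᵒᵖ)
      (z : ((Hm P p q).obj c).obj k), Hm.val ((e.hom.app c).app k z) = Hm.val z := by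
  subst hp hq
  exact ⟨Iso.refl _, fun _ _ _ => rfl⟩

theorem ES_NDHm {X : SP (Th (n + 1))} {D : SP (Gn (n + 1))} (f : filt X ⟶ D)
    (x y : Vt (C := Th n) X) (f' : filt (Hm (C := Th n) X x y) ⟶ FHm D (vf f x) (vf f y))
    (hf' : ∀ (g : (Gn n)ᵒᵖ) (k : SimplexCategoryᵒᵖ)
        (z : ((Hm (C := Th n) X x y).obj (op ((tower n).obj g.unop))).obj k),
        ((f'.app g).app k z).1 =
          (f.app (op ((segG n).obj g.unop))).app k (Hm.val (C := Th n) z))
    (i : Fin (n + 1)) (a b : Vt (C := Th n) (level (filt X) i.succ))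
    (ha : (X.map ((trUnit (n + 1) i.succ).app (ptT (n + 1))).op).app _ a = x)
    (hb : (X.map ((trUnit (n + 1) i.succ).app (ptT (n + 1))).op).app _ b = y) :
    vtMap (C := Th n) (levelHom f i.succ) a = vlev D (vf f x) i.succ ∧
    vtMap (C := Th n) (levelHom f i.succ) b = vlev D (vf f y) i.succ ∧
    ∀ m : ℕ, ES n m (HmMap (C := Th n) (levelHom f i.succ) a b) ↔ ES n m (levelHom f' i) := by
  have h1 := levelHom_vt f x i a ha
  have h2 := levelHom_vt f y i b hb
  refine ⟨h1, h2, fun m => ?_⟩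
  obtain ⟨e', he'⟩ := hm_eq (C := Th n) (P := level D i.succ) h1 h2
  have hI := lvS_isIso x y i a b ha hb
  have key : HmMap (C := Th n) (levelHom f i.succ) a b ≫ e'.hom =
      (asIso (lvS x y i a b ha hb)).hom ≫ levelHom f' i := by
    refine NatTrans.ext (funext fun c => NatTrans.ext (funext fun k => ?_))
    refine ConcreteCategory.hom_ext _ _
      fun (z : ((Hm (C := Th n) (level (filt X) i.succ) a b).obj c).obj k) => ?_
    refine Subtype.ext ?_
    refine (he' c k ((HmMap (C := Th n) (levelHom f i.succ) a b).app c |>.app k z)).trans ?_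
    exact (hf' (op (c.unop, op i)) k (((lvS x y i a b ha hb).app c).app k z)).symm
  constructor
  · intro h
    exact Pool.Agent.Helper61.FL2.ES_of_arrow_iso (asIso (lvS x y i a b ha hb)) e' key h
  · intro h
    refine Pool.Agent.Helper61.FL2.ES_of_arrow_iso (asIso (lvS x y i a b ha hb)).symm e'.symm
      ?_ h
    refine (Iso.comp_inv_eq e').mpr ?_
    refine Eq.trans ?_ (Category.assoc _ _ _).symm
    exact (Iso.eq_inv_comp _).mpr key.symm

end Final

end

end Pool.Agent.Helper7.FL2
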